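import Mathlib

/-!
Positivity of completely monotone arrays: `a n k = a (n+1) k + a n (k+1)`, `a n k ≥ 0`.
-/

namespace Pool.Agent.W760.GraphAdd

/-- The Bernstein functional of an array. -/
noncomputable def bern (a : ℕ → ℕ → ℝ) : ℕ → (ℕ → ℝ) → ℕ → ℕ → ℝ
  | 0, g, n, k => g 0 * a n k
  | (N + 1), g, n, k => bern a N g (n + 1) k + bern a N (fun j => g (j + 1)) n (k + 1)

theorem bern_nonneg {a : ℕ → ℕ → ℝ} (ha : ∀ n k, 0 ≤ a n k) :
    ∀ (N : ℕ) (g : ℕ → ℝ) (n k : ℕ), (∀ j, 0 ≤ g j) → 0 ≤ bern a N g n k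
  | 0, g, n, k, hg => mul_nonneg (hg 0) (ha n k)
  | (N + 1), g, n, k, hg => by
      show 0 ≤ bern a N g (n + 1) k + bern a N (fun j => g (j + 1)) n (k + 1)
      exact add_nonneg (bern_nonneg ha N g (n + 1) k hg)
        (bern_nonneg ha N (fun j => g (j + 1)) n (k + 1) (fun j => hg (j + 1)))

theorem bern_quad {a : ℕ → ℕ → ℝ} (hr : ∀ n k, a n k = a (n + 1) k + a n (k + 1)) :
    ∀ (N : ℕ) (α β γ : ℝ) (n k : ℕ),
      bern a N (fun j => α + β * (j : ℝ) + γ * ((j : ℝ) * ((j : ℝ) - 1))) n k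
        = α * a n k + β * N * a n (k + 1) + γ * ((N : ℝ) * ((N : ℝ) - 1)) * a n (k + 2)
  | 0, α, β, γ, n, k => by
      simp [bern]
  | (N + 1), α, β, γ, n, k => by
      have h1 := bern_quad hr N α β γ (n + 1) k
      have h2 := bern_quad hr N (α + β) (β + 2 * γ) γ n (k + 1)
      have e : (fun j : ℕ => α + β * ((j + 1 : ℕ) : ℝ)
            + γ * (((j + 1 : ℕ) : ℝ) * (((j + 1 : ℕ) : ℝ) - 1)))
          = fun j : ℕ => (α + β) + (β + 2 * γ) * (j : ℝ) + γ * ((j : ℝ) * ((j : ℝ) - 1)) := by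
        funext j; push_cast; ring
      show bern a N (fun j => α + β * (j : ℝ) + γ * ((j : ℝ) * ((j : ℝ) - 1))) (n + 1) k
          + bern a N (fun j : ℕ => α + β * ((j + 1 : ℕ) : ℝ)
            + γ * (((j + 1 : ℕ) : ℝ) * (((j + 1 : ℕ) : ℝ) - 1))) n (k + 1) = _
      rw [e, h1, h2]
      have r0 := hr n k
      have r1 := hr n (k + 1)
      have r2 := hr n (k + 2)
      have r3 : a (n + 1) k = a n k - a n (k + 1) := by linarith
      have r4 : a (n + 1) (k + 1) = a n (k + 1) - a n (k + 1 + 1) := by linarith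
      have r5 : a (n + 1) (k + 2) = a n (k + 2) - a n (k + 2 + 1) := by linarith
      rw [r3, r4, r5]
      push_cast
      ring_nf

/-- Every nonnegative array of differences is positive on squares. -/
theorem quad_nonneg {a : ℕ → ℕ → ℝ} (ha : ∀ n k, 0 ≤ a n k)
    (hr : ∀ n k, a n k = a (n + 1) k + a n (k + 1)) (s : ℝ) (n k : ℕ) :
    0 ≤ a n (k + 2) - 2 * s * a n (k + 1) + s ^ 2 * a n k := by
  by_contra hneg
  push Not at hneg
  set Q : ℝ := a n (k + 2) - 2 * s * a n (k + 1) + s ^ 2 * a n k with hQ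
  obtain ⟨N, hN⟩ := exists_nat_gt (a n k / (-Q) + 2)
  have hNQ : 0 < -Q := by linarith
  have hN2 : (2 : ℝ) < N := by
    have : 0 ≤ a n k / (-Q) := div_nonneg (ha n k) hNQ.le
    linarith
  have hN1 : (0 : ℝ) < (N : ℝ) - 1 := by linarith
  have hN0 : (0 : ℝ) < (N : ℝ) := by linarith
  have key := bern_nonneg ha N
    (fun j => (s ^ 2 + 1 / (4 * ((N : ℝ) - 1))) + (-2 * s / N) * (j : ℝ)
      + (1 / ((N : ℝ) * ((N : ℝ) - 1))) * ((j : ℝ) * ((j : ℝ) - 1))) n k (by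
      intro j
      have : (s ^ 2 + 1 / (4 * ((N : ℝ) - 1))) + (-2 * s / N) * (j : ℝ)
          + (1 / ((N : ℝ) * ((N : ℝ) - 1))) * ((j : ℝ) * ((j : ℝ) - 1))
          = ((j : ℝ) / N - s) ^ 2
            + ((N : ℝ) - 2 * j) ^ 2 / (4 * (N : ℝ) ^ 2 * ((N : ℝ) - 1)) := by
        field_simp
        ring
      rw [this]
      positivity)
  rw [bern_quad hr] at key
  have e : (s ^ 2 + 1 / (4 * ((N : ℝ) - 1))) * a n k + (-2 * s / N) * N * a n (k + 1)
      + (1 / ((N : ℝ) * ((N : ℝ) - 1))) * ((N : ℝ) * ((N : ℝ) - 1)) * a n (k + 2)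
      = Q + a n k / (4 * ((N : ℝ) - 1)) := by
    rw [hQ]
    field_simp
    ring
  rw [e] at key
  have h3 : a n k / (-Q) < (N : ℝ) - 1 := by linarith
  have h4 : a n k < ((N : ℝ) - 1) * (-Q) := by
    rwa [div_lt_iff₀ hNQ] at h3
  have h5 : a n k / (4 * ((N : ℝ) - 1)) < -Q := by
    rw [div_lt_iff₀ (by positivity)]
    nlinarith [mul_pos hN1 hNQ]
  linarith

theorem logconvex {a : ℕ → ℕ → ℝ} (ha : ∀ n k, 0 ≤ a n k)
    (hr : ∀ n k, a n k = a (n + 1) k + a n (k + 1)) (h0 : 0 < a 0 0) :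
    a 0 1 ^ 2 ≤ a 0 0 * a 0 2 := by
  have h := quad_nonneg ha hr (a 0 1 / a 0 0) 0 0
  have e : a 0 (0 + 2) - 2 * (a 0 1 / a 0 0) * a 0 (0 + 1) + (a 0 1 / a 0 0) ^ 2 * a 0 0
      = (a 0 0 * a 0 2 - a 0 1 ^ 2) / a 0 0 := by
    field_simp
    ring_nf
  rw [e] at h
  have := (div_nonneg_iff.1 h)
  rcases this with h1 | h1
  · linarith [h1.1]
  · linarith [h1.2]

/-- Equality case. -/
theorem geometric {a : ℕ → ℕ → ℝ} (ha : ∀ n k, 0 ≤ a n k)
    (hr : ∀ n k, a n k = a (n + 1) k + a n (k + 1)) (h0 : 0 < a 0 0)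
    (heq : a 0 0 * a 0 2 ≤ a 0 1 ^ 2) :
    ∀ k, a 0 k = a 0 0 * (a 0 1 / a 0 0) ^ k := by
  set s := a 0 1 / a 0 0 with hs
  have hs1 : a 0 1 = a 0 0 * s := by rw [hs]; field_simp
  have hQ : ∀ n k, 0 ≤ a n (k + 2) - 2 * s * a n (k + 1) + s ^ 2 * a n k :=
    fun n k => quad_nonneg ha hr s n k
  have hQ0 : ∀ k, a 0 (k + 2) - 2 * s * a 0 (k + 1) + s ^ 2 * a 0 k ≤ 0 := by
    intro k
    induction k with
    | zero =>
      have : a 0 0 * (a 0 2 - 2 * s * a 0 1 + s ^ 2 * a 0 0) ≤ 0 := by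
        rw [hs1] at heq ⊢
        nlinarith
      have h2 := nonpos_of_mul_nonpos_right this h0
      simpa using h2
    | succ k ih =>
      have h1 := hQ 1 k
      have r0 := hr 0 k
      have r1 := hr 0 (k + 1)
      have r2 := hr 0 (k + 2)
      simp only [zero_add] at r0 r1 r2
      have e : a 1 (k + 2) - 2 * s * a 1 (k + 1) + s ^ 2 * a 1 k
          = (a 0 (k + 2) - 2 * s * a 0 (k + 1) + s ^ 2 * a 0 k)
            - (a 0 (k + 1 + 2) - 2 * s * a 0 (k + 1 + 1) + s ^ 2 * a 0 (k + 1)) := by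
        have r3 : a 1 k = a 0 k - a 0 (k + 1) := by linarith
        have r4 : a 1 (k + 1) = a 0 (k + 1) - a 0 (k + 1 + 1) := by linarith
        have r5 : a 1 (k + 2) = a 0 (k + 2) - a 0 (k + 2 + 1) := by linarith
        rw [r3, r4, r5]
        ring_nf
      rw [e] at h1
      linarith
  have hrec : ∀ k, a 0 (k + 2) = 2 * s * a 0 (k + 1) - s ^ 2 * a 0 k := by
    intro k
    have := hQ 0 k
    have := hQ0 k
    linarith
  have main : ∀ k, a 0 k = a 0 0 * s ^ k ∧ a 0 (k + 1) = a 0 0 * s ^ (k + 1) := by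
    intro k
    induction k with
    | zero => exact ⟨by simp, by simpa using hs1⟩
    | succ k ih =>
      refine ⟨ih.2, ?_⟩
      rw [hrec k, ih.1, ih.2]
      ring
  exact fun k => (main k).1

/-- Equality case for the first column. -/
theorem geometric' {a : ℕ → ℕ → ℝ} (ha : ∀ n k, 0 ≤ a n k)
    (hr : ∀ n k, a n k = a (n + 1) k + a n (k + 1)) (h0 : 0 < a 0 0)
    (heq : a 0 0 * a 2 0 ≤ a 1 0 ^ 2) :
    ∀ n k, a n k = a 0 0 * (a 1 0 / a 0 0) ^ n * (1 - a 1 0 / a 0 0) ^ k := by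
  have hcol : ∀ n, a n 0 = a 0 0 * (a 1 0 / a 0 0) ^ n :=
    geometric (a := fun n k => a k n) (fun n k => ha k n)
      (fun n k => by show a k n = a k (n + 1) + a (k + 1) n; rw [hr k n]; ring) h0 heq
  intro n k
  induction k generalizing n with
  | zero => simp [hcol n]
  | succ k ih =>
    have r := hr n k
    have : a n (k + 1) = a n k - a (n + 1) k := by linarith
    rw [this, ih n, ih (n + 1)]
    ring

theorem logconvex' {a : ℕ → ℕ → ℝ} (ha : ∀ n k, 0 ≤ a n k)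
    (hr : ∀ n k, a n k = a (n + 1) k + a n (k + 1)) (h0 : 0 < a 0 0) :
    a 1 0 ^ 2 ≤ a 0 0 * a 2 0 :=
  logconvex (a := fun n k => a k n) (fun n k => ha k n)
    (fun n k => by show a k n = a k (n + 1) + a (k + 1) n; rw [hr k n]; ring) h0

end Pool.Agent.W760.GraphAdd
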