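import Mathlib
import Pool.Agent.W760.GraphPos

/-!
Expanding case: commuting maps `E`, `D` near `0` with `|E x| = |x| + |D x|`.
-/

namespace Pool.Agent.W760.GraphAdd

open Set

/-- Local data: `E` and `D` commute near `0`, `|E x| = |x| + |D x|`, `D x ≠ 0` off `0`, and
`E` multiplies signs by `σ`. -/
structure Expd (E D : ℝ → ℝ) (δ σ : ℝ) : Prop where
  hE : Continuous E
  hD : Continuous D
  hδ : 0 < δ
  hσ : σ = 1 ∨ σ = -1
  hE0 : E 0 = 0
  hcomm : ∀ x, |x| < δ → D (E x) = E (D x)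
  habs : ∀ x, x ≠ 0 → |x| < δ → |E x| = |x| + |D x|
  hDne : ∀ x, x ≠ 0 → |x| < δ → D x ≠ 0
  hsg : ∀ x, x ≠ 0 → |x| < δ → 0 < σ * (x * E x)

variable {E D : ℝ → ℝ} {δ σ : ℝ}

theorem Expd.sq (h : Expd E D δ σ) : σ * σ = 1 := by
  rcases h.hσ with h | h <;> rw [h] <;> norm_num

theorem Expd.abs_mul (h : Expd E D δ σ) (y : ℝ) : |σ * y| = |y| := by
  rcases h.hσ with h | h <;> rw [h] <;> simp

theorem Expd.ne (h : Expd E D δ σ) : σ ≠ 0 := by
  rcases h.hσ with h | h <;> rw [h] <;> norm_num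

theorem Expd.lt_abs (h : Expd E D δ σ) {x : ℝ} (hx : x ≠ 0) (hd : |x| < δ) : |x| < |E x| := by
  rw [h.habs x hx hd]
  have := abs_pos.2 (h.hDne x hx hd)
  linarith

theorem exists_prev (h : Expd E D δ σ) {y : ℝ} (hy : y ≠ 0) (hyd : |y| < δ) :
    ∃ z, (z ≠ 0 ∧ |z| < δ) ∧ E z = y := by
  have ht : σ * y ≠ 0 := mul_ne_zero h.ne hy
  have htd : |σ * y| < δ := by rw [h.abs_mul]; exact hyd
  have h1 := h.hsg _ ht htd
  have h2 := h.lt_abs ht htd
  rw [h.abs_mul] at h2
  have h3 : 0 < y * E (σ * y) := by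
    have : σ * (σ * y * E (σ * y)) = y * E (σ * y) := by
      calc σ * (σ * y * E (σ * y)) = (σ * σ) * (y * E (σ * y)) := by ring
        _ = _ := by rw [h.sq, one_mul]
    rwa [this] at h1
  have hmem : y ∈ uIcc (E 0) (E (σ * y)) := by
    rw [h.hE0, mem_uIcc]
    rcases lt_or_gt_of_ne hy with hy' | hy'
    · right
      have : E (σ * y) < 0 := by
        by_contra hc
        push Not at hc
        nlinarith
      rw [abs_of_neg hy', abs_of_neg this] at h2
      exact ⟨by linarith, hy'.le⟩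
    · left
      have : 0 < E (σ * y) := by
        by_contra hc
        push Not at hc
        nlinarith
      rw [abs_of_pos hy', abs_of_pos this] at h2
      exact ⟨hy'.le, by linarith⟩
  obtain ⟨z, hz, hzE⟩ := intermediate_value_uIcc (h.hE.continuousOn) hmem
  refine ⟨z, ⟨?_, ?_⟩, hzE⟩
  · rintro rfl
    rw [h.hE0] at hzE
    exact hy hzE.symm
  · have := Set.abs_sub_left_of_mem_uIcc hz
    simp only [sub_zero] at this
    exact lt_of_le_of_lt this htd

/-- Backward orbits of `E` in the punctured neighbourhood of radius `δ`. -/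
def BOrb (E : ℝ → ℝ) (δ : ℝ) (c : ℕ → ℝ) : Prop :=
  (∀ k, c k ≠ 0 ∧ |c k| < δ) ∧ ∀ k, E (c (k + 1)) = c k

theorem exists_borb (h : Expd E D δ σ) {y : ℝ} (hy : y ≠ 0) (hyd : |y| < δ) :
    ∃ c, BOrb E δ c ∧ c 0 = y := by
  have hp : ∀ p : {y : ℝ // y ≠ 0 ∧ |y| < δ}, ∃ q : {y : ℝ // y ≠ 0 ∧ |y| < δ},
      E q.1 = p.1 := by
    rintro ⟨p, hp1, hp2⟩
    obtain ⟨z, hz, hzE⟩ := exists_prev h hp1 hp2
    exact ⟨⟨z, hz⟩, hzE⟩
  choose F hF using hp
  refine ⟨fun k => (F^[k] ⟨y, hy, hyd⟩).1, ⟨fun k => (F^[k] ⟨y, hy, hyd⟩).2, ?_⟩, rfl⟩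
  intro k
  show E (F^[k + 1] ⟨y, hy, hyd⟩).1 = (F^[k] ⟨y, hy, hyd⟩).1
  rw [Function.iterate_succ_apply']
  exact hF _

/-- Prepend a point. -/
def cons (x : ℝ) (c : ℕ → ℝ) : ℕ → ℝ
  | 0 => x
  | (k + 1) => c k

theorem BOrb.cons {c : ℕ → ℝ} (hc : BOrb E δ c) {x : ℝ} (hx : x ≠ 0) (hxd : |x| < δ)
    (hE : E (c 0) = x) : BOrb E δ (cons x c) := by
  refine ⟨?_, ?_⟩
  · rintro (_ | k)
    · exact ⟨hx, hxd⟩
    · exact hc.1 k
  · rintro (_ | k)
    · exact hE
    · exact hc.2 k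

theorem BOrb.tail {c : ℕ → ℝ} (hc : BOrb E δ c) : BOrb E δ (fun k => c (k + 1)) :=
  ⟨fun k => hc.1 (k + 1), fun k => hc.2 (k + 1)⟩

/-- The array of an orbit. -/
def arr (D : ℝ → ℝ) (c : ℕ → ℝ) : ℕ → ℕ → ℝ
  | 0, k => c k
  | (n + 1), k => D (arr D c n (k + 1))

theorem arr_props (h : Expd E D δ σ) {c : ℕ → ℝ} (hc : BOrb E δ c) :
    ∀ n k, arr D c n k ≠ 0 ∧ |arr D c n k| ≤ |c k| ∧ E (arr D c n (k + 1)) = arr D c n k
  | 0, k => ⟨(hc.1 k).1, le_refl _, hc.2 k⟩
  | (n + 1), k => by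
      obtain ⟨h1, h2, h3⟩ := arr_props h hc n (k + 1)
      obtain ⟨g1, g2, g3⟩ := arr_props h hc n k
      obtain ⟨f1, f2, f3⟩ := arr_props h hc n (k + 2)
      have hlt : |arr D c n (k + 1)| < δ := lt_of_le_of_lt h2 (hc.1 (k + 1)).2
      have hlt2 : |arr D c n (k + 2)| < δ := lt_of_le_of_lt f2 (hc.1 (k + 2)).2
      refine ⟨h.hDne _ h1 hlt, ?_, ?_⟩
      · show |D (arr D c n (k + 1))| ≤ |c k|
        have := h.habs _ h1 hlt
        rw [g3] at this
        have := abs_nonneg (arr D c n (k + 1))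
        linarith
      · show E (D (arr D c n (k + 1 + 1))) = D (arr D c n (k + 1))
        rw [← h.hcomm _ hlt2, h3]

theorem arr_rec (h : Expd E D δ σ) {c : ℕ → ℝ} (hc : BOrb E δ c) (n k : ℕ) :
    |arr D c n k| = |arr D c (n + 1) k| + |arr D c n (k + 1)| := by
  obtain ⟨h1, h2, h3⟩ := arr_props h hc n (k + 1)
  obtain ⟨g1, g2, g3⟩ := arr_props h hc n k
  have hlt : |arr D c n (k + 1)| < δ := lt_of_le_of_lt h2 (hc.1 (k + 1)).2
  have := h.habs _ h1 hlt
  rw [g3] at this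
  show |arr D c n k| = |D (arr D c n (k + 1))| + |arr D c n (k + 1)|
  rw [this]; ring

theorem Expd.mono (h : Expd E D δ σ) {x : ℝ} (hx : x ≠ 0) (h0 : |x| < δ) (h1 : |E x| < δ)
    (h2 : |E (E x)| < δ) : |D x| * |E x| ≤ |D (E x)| * |x| := by
  obtain ⟨c, hc, hc0⟩ := exists_borb h hx h0
  have hEx : E x ≠ 0 := by
    intro h'
    have := h.lt_abs hx h0
    rw [h', abs_zero] at this
    have := abs_nonneg x
    linarith
  have hEEx : E (E x) ≠ 0 := by
    intro h'
    have := h.lt_abs hEx h1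
    rw [h', abs_zero] at this
    have := abs_nonneg (E x)
    linarith
  have hc1 : BOrb E δ (cons (E x) c) := hc.cons hEx h1 (by rw [hc0])
  have hc2 : BOrb E δ (cons (E (E x)) (cons (E x) c)) := hc1.cons hEEx h2 rfl
  have key := logconvex (a := fun n k => |arr D (cons (E (E x)) (cons (E x) c)) n k|)
    (fun n k => abs_nonneg _) (fun n k => arr_rec h hc2 n k) (abs_pos.2 hEEx)
  have key' : |E x| ^ 2 ≤ |E (E x)| * |c 0| := key
  rw [hc0] at key'
  have e1 := h.habs x hx h0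
  have e2 := h.habs (E x) hEx h1
  nlinarith [abs_nonneg x, abs_nonneg (E x)]

theorem Expd.rmono (h : Expd E D δ σ) {x : ℝ} (hx : x ≠ 0) (h0 : |x| < δ) (h1 : |E x| < δ)
    (h2 : |E (E x)| < δ) : |D x| / |x| ≤ |D (E x)| / |E x| := by
  have hx' := abs_pos.2 hx
  have hE' : 0 < |E x| := lt_trans hx' (h.lt_abs hx h0)
  rw [div_le_div_iff₀ hx' hE']
  exact h.mono hx h0 h1 h2

theorem Expd.exists_max (h : Expd E D δ σ) :
    ∃ δ₁ : ℝ, 0 < δ₁ ∧ δ₁ < δ ∧ (∀ x, |x| ≤ δ₁ → |E x| < δ) ∧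
      ∃ b, b ≠ 0 ∧ |b| ≤ δ₁ ∧ ∀ x, x ≠ 0 → |x| ≤ δ₁ → |D x| / |x| ≤ |D b| / |b| := by
  -- choose the radii
  have hloc : ∀ ε > 0, ∃ η > 0, ∀ x, |x| ≤ η → |E x| < ε := by
    intro ε hε
    have := (Metric.continuousAt_iff.1 (h.hE.continuousAt (x := 0))) ε hε
    obtain ⟨η, hη, hη2⟩ := this
    refine ⟨η / 2, by positivity, fun x hx => ?_⟩
    have := hη2 (x := x) (by rw [Real.dist_eq, sub_zero]; linarith)
    rwa [Real.dist_eq, h.hE0, sub_zero] at this
  obtain ⟨η₁, hη₁, hη₁'⟩ := hloc δ h.hδ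
  set δ₁ := min η₁ (δ / 2) with hδ₁
  have hδ₁0 : 0 < δ₁ := lt_min hη₁ (by linarith [h.hδ])
  have hδ₁δ : δ₁ < δ := lt_of_le_of_lt (min_le_right _ _) (by linarith [h.hδ])
  have hE1 : ∀ x, |x| ≤ δ₁ → |E x| < δ := fun x hx => hη₁' x (hx.trans (min_le_left _ _))
  obtain ⟨η₂, hη₂, hη₂'⟩ := hloc δ₁ hδ₁0
  set δ₂ := min η₂ (δ₁ / 2) with hδ₂
  have hδ₂0 : 0 < δ₂ := lt_min hη₂ (by linarith)
  have hδ₂δ : δ₂ < δ₁ := lt_of_le_of_lt (min_le_right _ _) (by linarith)
  have hE2 : ∀ x, |x| ≤ δ₂ → |E x| < δ₁ := fun x hx => hη₂' x (hx.trans (min_le_left _ _))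
  refine ⟨δ₁, hδ₁0, hδ₁δ, hE1, ?_⟩
  -- compact annulus
  have hK : IsCompact {x : ℝ | δ₂ ≤ |x| ∧ |x| ≤ δ₁} := by
    apply Metric.isCompact_of_isClosed_isBounded
    · exact (isClosed_le continuous_const continuous_abs).inter
        (isClosed_le continuous_abs continuous_const)
    · rw [isBounded_iff_forall_norm_le]
      exact ⟨δ₁, fun x hx => hx.2⟩
  have hKne : {x : ℝ | δ₂ ≤ |x| ∧ |x| ≤ δ₁}.Nonempty :=
    ⟨δ₁, by rw [Set.mem_ofPred_eq, abs_of_pos hδ₁0]; exact ⟨hδ₂δ.le, le_refl _⟩⟩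
  have hcont : ContinuousOn (fun x : ℝ => |D x| / |x|) {x : ℝ | δ₂ ≤ |x| ∧ |x| ≤ δ₁} := by
    apply ContinuousOn.div
    · exact (h.hD.abs).continuousOn
    · exact continuous_abs.continuousOn
    · intro x hx h0
      have := hx.1
      rw [h0] at this
      linarith
  obtain ⟨b, hbK, hbmax⟩ := hK.exists_isMaxOn hKne hcont
  have hb0 : b ≠ 0 := by
    intro h0
    have := hbK.1
    rw [h0, abs_zero] at this
    linarith
  refine ⟨b, hb0, hbK.2, ?_⟩
  intro x hx hxd
  by_contra hcon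
  push Not at hcon
  have hxpos := abs_pos.2 hx
  have hrpos : 0 < |D x| / |x| :=
    div_pos (abs_pos.2 (h.hDne x hx (lt_of_le_of_lt hxd hδ₁δ))) hxpos
  have hstep : ∀ y, y ≠ 0 → |y| ≤ δ₁ → |D x| / |x| ≤ |D y| / |y| → |y| < δ₂ := by
    intro y hy hyd hyr
    by_contra hc
    push Not at hc
    have hyK : y ∈ {x : ℝ | δ₂ ≤ |x| ∧ |x| ≤ δ₁} := ⟨hc, hyd⟩
    have := isMaxOn_iff.1 hbmax y hyK
    linarith
  have hind : ∀ m : ℕ, ∃ y, y ≠ 0 ∧ |y| < δ₂ ∧ |D x| / |x| ≤ |D y| / |y| ∧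
      (1 + |D x| / |x|) ^ m * |x| ≤ |y| := by
    intro m
    induction m with
    | zero => exact ⟨x, hx, hstep x hx hxd le_rfl, le_rfl, by simp⟩
    | succ m ih =>
      obtain ⟨y, hy, hyd, hyr, hyg⟩ := ih
      have hyδ : |y| < δ := by linarith
      have hEy1 : |E y| < δ₁ := hE2 y hyd.le
      have hEyne : E y ≠ 0 := by
        intro h'
        have := h.lt_abs hy hyδ
        rw [h', abs_zero] at this
        have := abs_nonneg y
        linarith
      have hm := h.rmono hy hyδ (hEy1.trans hδ₁δ) (hE1 _ hEy1.le)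
      have hr := hyr.trans hm
      refine ⟨E y, hEyne, hstep _ hEyne hEy1.le hr, hr, ?_⟩
      rw [h.habs y hy hyδ]
      have hypos := abs_pos.2 hy
      have h3 : |D x| / |x| * |y| ≤ |D y| := by
        rwa [le_div_iff₀ hypos] at hyr
      calc (1 + |D x| / |x|) ^ (m + 1) * |x|
          = (1 + |D x| / |x|) * ((1 + |D x| / |x|) ^ m * |x|) := by ring
        _ ≤ (1 + |D x| / |x|) * |y| := by
            apply mul_le_mul_of_nonneg_left hyg; positivity
        _ ≤ |y| + |D y| := by linarith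
  obtain ⟨m, hm⟩ := pow_unbounded_of_one_lt (δ₂ / |x|) (show 1 < 1 + |D x| / |x| by linarith)
  obtain ⟨y, hy, hyd, -, hyg⟩ := hind m
  rw [div_lt_iff₀ hxpos] at hm
  linarith

/-- All backward orbits of `y` are geometric with ratio `Λ` in absolute value. -/
def Geo (E : ℝ → ℝ) (δ Λ y : ℝ) : Prop :=
  ∀ c, BOrb E δ c → c 0 = y → ∀ k, |c k| * Λ ^ k = |y|

theorem Expd.geo_of_max (h : Expd E D δ σ) {δ₁ b : ℝ} (hδ₁ : δ₁ < δ)
    (hE1 : ∀ x, |x| ≤ δ₁ → |E x| < δ) (hb : b ≠ 0) (hbd : |b| ≤ δ₁)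
    (hmax : ∀ x, x ≠ 0 → |x| ≤ δ₁ → |D x| / |x| ≤ |D b| / |b|) :
    Geo E δ (1 + |D b| / |b|) b := by
  intro c hc hc0
  have hbδ : |b| < δ := lt_of_le_of_lt hbd hδ₁
  have hbpos := abs_pos.2 hb
  have hEb : E b ≠ 0 := by
    intro h'
    have := h.lt_abs hb hbδ
    rw [h', abs_zero] at this
    linarith
  have hc' : BOrb E δ (cons (E b) c) := hc.cons hEb (hE1 b hbd) (by rw [hc0])
  set c' := cons (E b) c with hc'def
  have hrec := fun n k => arr_rec h hc' n k
  have hnn : ∀ n k, 0 ≤ |arr D c' n k| := fun n k => abs_nonneg _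
  have h00 : |arr D c' 0 0| = |E b| := rfl
  have h01 : |arr D c' 0 1| = |b| := by show |c 0| = |b|; rw [hc0]
  have h10 : |arr D c' 1 0| = |D b| := by show |D (c 0)| = |D b|; rw [hc0]
  have h11 : arr D c' 1 1 ≠ 0 ∧ |arr D c' 1 1| ≤ |b| := by
    obtain ⟨p1, p2, -⟩ := arr_props h hc' 1 1
    refine ⟨p1, p2.trans ?_⟩
    show |c 0| ≤ |b|
    rw [hc0]
  have hm := hmax _ h11.1 (h11.2.trans hbd)
  have h20 : |arr D c' 2 0| = |D (arr D c' 1 1)| := rfl
  rw [← h20, ← h10, ← h01] at hm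
  have hpos11 := abs_pos.2 h11.1
  have hpos01 : 0 < |arr D c' 0 1| := by rw [h01]; exact hbpos
  rw [div_le_div_iff₀ hpos11 hpos01] at hm
  have r00 := hrec 0 0
  have r10 := hrec 1 0
  simp only [zero_add] at r00 r10
  have hpos00 : 0 < |arr D c' 0 0| := by rw [h00]; exact abs_pos.2 hEb
  have heq : |arr D c' 0 0| * |arr D c' 2 0| ≤ |arr D c' 1 0| ^ 2 := by
    have e1 : |arr D c' 2 0| = |arr D c' 1 0| - |arr D c' 1 1| := by linarith
    nlinarith
  have hgeo := geometric' (a := fun n k => |arr D c' n k|) hnn hrec hpos00 heq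
  intro k
  have hk : |c k| = |arr D c' 0 (k + 1)| := rfl
  have hk2 := hgeo 0 (k + 1)
  simp only [pow_zero, mul_one] at hk2
  rw [hk, hk2, h10, h00]
  have hab := h.habs b hb hbδ
  have hEpos : 0 < |E b| := abs_pos.2 hEb
  have e2 : 1 - |D b| / |E b| = |b| / |E b| := by
    rw [eq_div_iff hEpos.ne', sub_mul, div_mul_cancel₀ _ hEpos.ne']
    linarith
  have e3 : 1 + |D b| / |b| = |E b| / |b| := by
    rw [eq_div_iff hbpos.ne', add_mul, div_mul_cancel₀ _ hbpos.ne']
    linarith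
  rw [e2, e3, div_pow, div_pow, pow_succ, pow_succ]
  field_simp

theorem Geo.prev {Λ y z : ℝ} (hΛ : 0 < Λ) (hg : Geo E δ Λ y) (h : Expd E D δ σ)
    (hy : y ≠ 0) (hyd : |y| < δ) (hz : z ≠ 0) (hzd : |z| < δ) (hE : E z = y) :
    |z| * Λ = |y| ∧ Geo E δ Λ z := by
  have key : ∀ c, BOrb E δ c → c 0 = z → |z| * Λ = |y| ∧ ∀ k, |c k| * Λ ^ k = |z| := by
    intro c hc hc0
    have hc' : BOrb E δ (cons y c) := hc.cons hy hyd (by rw [hc0, hE])
    have h1 := hg _ hc' rfl
    have h2 : |c 0| * Λ ^ 1 = |y| := h1 1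
    rw [hc0, pow_one] at h2
    refine ⟨h2, fun k => ?_⟩
    have h3 : |c k| * Λ ^ (k + 1) = |y| := h1 (k + 1)
    rw [← h2, pow_succ, ← mul_assoc] at h3
    exact mul_right_cancel₀ hΛ.ne' h3
  obtain ⟨c, hc, hc0⟩ := exists_borb h hz hzd
  exact ⟨(key c hc hc0).1, fun c hc hc0 => (key c hc hc0).2⟩

/-- The comparison step. -/
theorem Geo.compare {Λ y z : ℝ} (hΛ : 0 < Λ) (hg : Geo E δ Λ y) (h : Expd E D δ σ)
    (hy : y ≠ 0) (hyd : |y| < δ) (hz : z ≠ 0) (hzd : |z| < δ) (hs : 0 < σ * (y * z))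
    (hlt : |y| < |z| * Λ) : |y| < |E z| := by
  rcases lt_or_ge |y| |z| with h1 | h1
  · exact h1.trans (h.lt_abs hz hzd)
  · by_contra hc
    push Not at hc
    set t := σ * y with ht
    have htabs : |t| = |y| := h.abs_mul y
    have htne : t ≠ 0 := mul_ne_zero h.ne hy
    have htE : |y| < |E t| := by
      rw [← htabs]
      exact h.lt_abs htne (by rw [htabs]; exact hyd)
    have htz : 0 < t * z := by rw [ht]; linarith [hs, mul_assoc σ y z]
    have hmem : |y| ∈ uIcc |E z| |E t| := by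
      rw [mem_uIcc]; left; exact ⟨hc, htE.le⟩
    obtain ⟨z', hz', hz'E⟩ := intermediate_value_uIcc (f := fun x => |E x|)
      ((h.hE.abs).continuousOn) hmem
    simp only at hz'E
    rw [mem_uIcc] at hz'
    -- `z'` lies between `z` and `t`
    have hz'1 : z' ≠ 0 ∧ |z| ≤ |z'| ∧ |z'| ≤ |t| ∧ 0 < t * z' := by
      rcases lt_or_gt_of_ne htne with htn | htp
      · have hzn : z < 0 := by
          by_contra hc2
          push Not at hc2
          nlinarith
        rw [abs_of_neg hzn, ← htabs, abs_of_neg htn] at h1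
        rcases hz' with ⟨a1, a2⟩ | ⟨a1, a2⟩
        · have : z' < 0 := by linarith
          refine ⟨this.ne, ?_, ?_, mul_pos_of_neg_of_neg htn this⟩
          · rw [abs_of_neg hzn, abs_of_neg this]; linarith
          · rw [abs_of_neg htn, abs_of_neg this]; linarith
        · have : z' < 0 := by linarith
          refine ⟨this.ne, ?_, ?_, mul_pos_of_neg_of_neg htn this⟩
          · rw [abs_of_neg hzn, abs_of_neg this]; linarith
          · rw [abs_of_neg htn, abs_of_neg this]; linarith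
      · have hzp : 0 < z := by
          by_contra hc2
          push Not at hc2
          nlinarith
        rw [abs_of_pos hzp, ← htabs, abs_of_pos htp] at h1
        rcases hz' with ⟨a1, a2⟩ | ⟨a1, a2⟩
        · have : 0 < z' := by linarith
          refine ⟨this.ne', ?_, ?_, mul_pos htp this⟩
          · rw [abs_of_pos hzp, abs_of_pos this]; linarith
          · rw [abs_of_pos htp, abs_of_pos this]; linarith
        · have : 0 < z' := by linarith
          refine ⟨this.ne', ?_, ?_, mul_pos htp this⟩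
          · rw [abs_of_pos hzp, abs_of_pos this]; linarith
          · rw [abs_of_pos htp, abs_of_pos this]; linarith
    obtain ⟨hz'0, hz'2, hz'3, hz'4⟩ := hz'1
    have hz'd : |z'| < δ := by rw [htabs] at hz'3; linarith
    have hsg := h.hsg z' hz'0 hz'd
    -- `E z' = y`
    have hEy : E z' = y := by
      have hprod : 0 < y * E z' := by
        -- σ z' E z' > 0 and σ y z' > 0
        have e1 : 0 < (σ * (z' * E z')) * (t * z') := mul_pos hsg hz'4
        have e2 : (σ * (z' * E z')) * (t * z') = (σ * σ) * (z' ^ 2) * (y * E z') := by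
          rw [ht]; ring
        rw [e2, h.sq, one_mul] at e1
        have : 0 < z' ^ 2 := by positivity
        exact (pos_iff_pos_of_mul_pos e1).1 this
      rcases abs_eq_abs.1 hz'E with h5 | h5
      · exact h5
      · rw [h5] at hprod
        nlinarith [sq_nonneg y]
    have := (hg.prev hΛ h hy hyd hz'0 hz'd hEy).1
    have : |z| * Λ ≤ |z'| * Λ := mul_le_mul_of_nonneg_right hz'2 hΛ.le
    linarith

/-- Main result in the expanding case. -/
theorem Expd.main (h : Expd E D δ σ) :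
    ∃ R > 0, ∃ η > 0, ∃ s : ℝ, (s = 1 ∨ s = -1) ∧
      ∀ y, 0 < s * y → s * y < η → |D y| = R * |y| := by
  obtain ⟨δ₁, hδ₁0, hδ₁δ, hE1, b, hb, hbd, hmax⟩ := h.exists_max
  have hbδ : |b| < δ := lt_of_le_of_lt hbd hδ₁δ
  have hbpos := abs_pos.2 hb
  have hDb := abs_pos.2 (h.hDne b hb hbδ)
  set R := |D b| / |b| with hR
  have hRpos : 0 < R := div_pos hDb hbpos
  have hgeo : Geo E δ (1 + R) b := h.geo_of_max hδ₁δ hE1 hb hbd hmax
  have hΛ : 0 < 1 + R := by linarith
  obtain ⟨bo, hbo, hbo0⟩ := exists_borb h hb hbδ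
  -- all members of the orbit are geometric
  have hboG : ∀ k, Geo E δ (1 + R) (bo k) ∧ |bo k| * (1 + R) ^ k = |b| := by
    intro k
    refine ⟨?_, hgeo bo hbo hbo0 k⟩
    induction k with
    | zero => rw [hbo0]; exact hgeo
    | succ k ih =>
      exact (ih.prev hΛ h (hbo.1 k).1 (hbo.1 k).2 (hbo.1 (k + 1)).1 (hbo.1 (k + 1)).2
        (hbo.2 k)).2
  -- key claim
  have hclaim : ∀ x, 0 < b * x → |x| ≤ |b| → ∀ y, y ≠ 0 → |y| < δ → E y = x →
      |D y| / |y| = R := by
    intro x hbx hxb y hy hyδ hEy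
    have hx : x ≠ 0 := by rintro rfl; simp at hbx
    have hxpos := abs_pos.2 hx
    have hylt : |y| < |x| := by rw [← hEy]; exact h.lt_abs hy hyδ
    have hypos := abs_pos.2 hy
    have hle : |D y| / |y| ≤ R := hmax y hy (by linarith)
    refine le_antisymm hle ?_
    by_contra hcon
    push Not at hcon
    obtain ⟨c, hc, hc0⟩ := exists_borb h hy hyδ
    have hc' : BOrb E δ (cons x c) := hc.cons hx (lt_of_le_of_lt hxb hbδ) (by rw [hc0, hEy])
    set c' := cons x c with hc'def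
    -- signs
    have hsgn : ∀ k, 0 < bo k * c' k := by
      intro k
      induction k with
      | zero => rw [hbo0]; exact hbx
      | succ k ih =>
        have s1 := h.hsg (bo (k + 1)) (hbo.1 (k + 1)).1 (hbo.1 (k + 1)).2
        have s2 := h.hsg (c' (k + 1)) (hc'.1 (k + 1)).1 (hc'.1 (k + 1)).2
        rw [hbo.2 k] at s1
        rw [hc'.2 k] at s2
        have e1 := mul_pos s1 s2
        have e2 : σ * (bo (k + 1) * bo k) * (σ * (c' (k + 1) * c' k))
            = (σ * σ) * ((bo k * c' k) * (bo (k + 1) * c' (k + 1))) := by ring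
        rw [e2, h.sq, one_mul] at e1
        exact (pos_iff_pos_of_mul_pos e1).1 ih
    -- upper bound
    have hup : ∀ k, |c' k| ≤ |bo k| := by
      intro k
      induction k with
      | zero => rw [hbo0]; exact hxb
      | succ k ih =>
        by_contra hc2
        push Not at hc2
        have hg := (hboG k).1
        have hb1 := (hg.prev hΛ h (hbo.1 k).1 (hbo.1 k).2 (hbo.1 (k + 1)).1
          (hbo.1 (k + 1)).2 (hbo.2 k)).1
        have hlt : |bo k| < |c' (k + 1)| * (1 + R) := by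
          rw [← hb1]; exact mul_lt_mul_of_pos_right hc2 hΛ
        have hs : 0 < σ * (bo k * c' (k + 1)) := by
          have s1 := h.hsg (bo (k + 1)) (hbo.1 (k + 1)).1 (hbo.1 (k + 1)).2
          rw [hbo.2 k] at s1
          have s3 := hsgn (k + 1)
          have e1 := mul_pos s1 s3
          have e2 : σ * (bo (k + 1) * bo k) * (bo (k + 1) * c' (k + 1))
              = bo (k + 1) ^ 2 * (σ * (bo k * c' (k + 1))) := by ring
          rw [e2] at e1
          have : 0 < bo (k + 1) ^ 2 := by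
            have := (hbo.1 (k + 1)).1
            positivity
          exact (pos_iff_pos_of_mul_pos e1).1 this
        have := hg.compare hΛ h (hbo.1 k).1 (hbo.1 k).2 (hc'.1 (k + 1)).1 (hc'.1 (k + 1)).2
          hs hlt
        rw [hc'.2 k] at this
        linarith
    -- ratios decrease backward
    have hrat : ∀ k, |D (c' (k + 1))| / |c' (k + 1)| ≤ |D y| / |y| := by
      intro k
      induction k with
      | zero =>
        have : c' (0 + 1) = y := hc0
        rw [this]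
      | succ k ih =>
        have hh := h.rmono (hc'.1 (k + 1 + 1)).1 (hc'.1 (k + 1 + 1)).2
          (by rw [hc'.2 (k + 1)]; exact (hc'.1 (k + 1)).2)
          (by rw [hc'.2 (k + 1), hc'.2 k]; exact (hc'.1 k).2)
        rw [hc'.2 (k + 1)] at hh
        exact hh.trans ih
    set μ := 1 + |D y| / |y| with hμ
    have hμpos : 0 < μ := by positivity
    have hlow : ∀ k, |x| ≤ μ ^ k * |c' k| := by
      intro k
      induction k with
      | zero =>
        show |x| ≤ μ ^ 0 * |x|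
        simp
      | succ k ih =>
        have h1 := hrat k
        have hp := abs_pos.2 (hc'.1 (k + 1)).1
        have h2 := h.habs (c' (k + 1)) (hc'.1 (k + 1)).1 (hc'.1 (k + 1)).2
        rw [hc'.2 k] at h2
        rw [div_le_iff₀ hp] at h1
        have h3 : |c' k| ≤ μ * |c' (k + 1)| := by rw [h2, hμ]; linarith
        calc |x| ≤ μ ^ k * |c' k| := ih
          _ ≤ μ ^ k * (μ * |c' (k + 1)|) := by
              apply mul_le_mul_of_nonneg_left h3; positivity
          _ = μ ^ (k + 1) * |c' (k + 1)| := by ring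
    -- contradiction
    have hlt : μ / (1 + R) < 1 := by rw [div_lt_one hΛ]; linarith
    obtain ⟨m, hm⟩ := exists_pow_lt_of_lt_one (div_pos hxpos hbpos) hlt
    have h6 := hlow m
    have h7 := hup m
    have h8 := (hboG m).2
    rw [div_pow, div_lt_div_iff₀ (by positivity) hbpos] at hm
    have h9 : |x| * (1 + R) ^ m ≤ μ ^ m * |b| := by
      calc |x| * (1 + R) ^ m ≤ (μ ^ m * |c' m|) * (1 + R) ^ m := by
            apply mul_le_mul_of_nonneg_right h6; positivity
        _ ≤ (μ ^ m * |bo m|) * (1 + R) ^ m := by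
            apply mul_le_mul_of_nonneg_right _ (by positivity)
            apply mul_le_mul_of_nonneg_left h7; positivity
        _ = μ ^ m * |b| := by rw [← h8]; ring
    linarith
  -- choose the side
  have hloc : ∃ η > 0, ∀ x, |x| < η → |E x| < |b| := by
    have := (Metric.continuousAt_iff.1 (h.hE.continuousAt (x := 0))) |b| hbpos
    obtain ⟨η, hη, hη2⟩ := this
    refine ⟨η, hη, fun x hx => ?_⟩
    have := hη2 (x := x) (by rw [Real.dist_eq, sub_zero]; exact hx)
    rwa [Real.dist_eq, h.hE0, sub_zero] at this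
  obtain ⟨η, hη, hη2⟩ := hloc
  obtain ⟨s, hs, hsb⟩ : ∃ s : ℝ, (s = 1 ∨ s = -1) ∧ 0 < s * (σ * b) := by
    have hσb : σ * b ≠ 0 := mul_ne_zero h.ne hb
    rcases lt_or_gt_of_ne hσb with h' | h'
    · exact ⟨-1, Or.inr rfl, by linarith⟩
    · exact ⟨1, Or.inl rfl, by linarith⟩
  refine ⟨R, hRpos, min η δ, lt_min hη h.hδ, s, hs, ?_⟩
  intro y hy0 hyη
  have hyabs : |y| = s * y := by
    rcases hs with rfl | rfl
    · rw [one_mul] at hy0 ⊢; exact abs_of_pos hy0
    · rw [abs_of_neg (by linarith)]; ring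
  have hyne : y ≠ 0 := by rintro rfl; simp at hy0
  have hyδ : |y| < δ := by rw [hyabs]; exact lt_of_lt_of_le hyη (min_le_right _ _)
  have hyη' : |y| < η := by rw [hyabs]; exact lt_of_lt_of_le hyη (min_le_left _ _)
  have hbE : 0 < b * E y := by
    have s1 := h.hsg y hyne hyδ
    have e1 := mul_pos (mul_pos hy0 hsb) s1
    have hss : s * s = 1 := by rcases hs with rfl | rfl <;> norm_num
    have e2 : s * y * (s * (σ * b)) * (σ * (y * E y))
        = (s * s) * (σ * σ) * (y ^ 2) * (b * E y) := by ring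
    rw [e2, hss, h.sq, one_mul, one_mul] at e1
    have : 0 < y ^ 2 := by positivity
    exact (pos_iff_pos_of_mul_pos e1).1 this
  have := hclaim (E y) hbE (hη2 y hyη').le y hyne hyδ rfl
  rw [div_eq_iff (abs_pos.2 hyne).ne'] at this
  exact this

end Pool.Agent.W760.GraphAdd
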