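import Mathlib
import Pool.Agent.W760.GraphPos

/-!
Functions additive on their graphs: basic facts, and the contracting case.
-/

namespace Pool.Agent.W760.GraphAdd

open Set

/-- Continuous solutions of `f (x + f x) = f x + f (f x)`. -/
structure Sol (f : ℝ → ℝ) : Prop where
  hf : Continuous f
  heq : ∀ x, f (x + f x) = f x + f (f x)

variable {f : ℝ → ℝ}

theorem Sol.zero (h : Sol f) : f 0 = 0 := by
  have := h.heq 0
  rw [zero_add] at this
  linarith

theorem Sol.neg (h : Sol f) : Sol (fun x => -f (-x)) := by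
  refine ⟨(h.hf.comp continuous_neg).neg, fun x => ?_⟩
  have := h.heq (-x)
  have e : -(x + -f (-x)) = -x + f (-x) := by ring
  show -f (-(x + -f (-x))) = -f (-x) + -f (-(-f (-x)))
  rw [e, this, neg_neg]
  ring

theorem Sol.hT (h : Sol f) : Continuous (fun x => x + f x) := continuous_id.add h.hf

/-- The array in the contracting case. -/
def carr (f : ℝ → ℝ) (x : ℝ) : ℕ → ℕ → ℝ
  | 0, k => (fun y => y + f y)^[k] x
  | (n + 1), k => f (carr f x n k)

/-- Contracting data. -/
structure Contr (f : ℝ → ℝ) (δ : ℝ) : Prop extends Sol f where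
  hδ : 0 < δ
  hneg : ∀ x, x ≠ 0 → |x| < δ → x * f x < 0
  hpos : ∀ x, x ≠ 0 → |x| < δ → 0 < x * (x + f x)

variable {δ : ℝ}

theorem Contr.neg (h : Contr f δ) : Contr (fun x => -f (-x)) δ := by
  refine ⟨h.toSol.neg, h.hδ, fun x hx hxd => ?_, fun x hx hxd => ?_⟩
  · have := h.hneg (-x) (neg_ne_zero.2 hx) (by rwa [abs_neg])
    show x * -f (-x) < 0
    linarith
  · have := h.hpos (-x) (neg_ne_zero.2 hx) (by rwa [abs_neg])
    show 0 < x * (x + -f (-x))
    nlinarith

theorem Contr.abs (h : Contr f δ) {x : ℝ} (hx : x ≠ 0) (hxd : |x| < δ) :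
    |x| = |f x| + |x + f x| := by
  have h1 := h.hneg x hx hxd
  have h2 := h.hpos x hx hxd
  rcases lt_or_gt_of_ne hx with h' | h'
  · have a1 : 0 < f x := by by_contra hc; push Not at hc; nlinarith
    have a2 : x + f x < 0 := by by_contra hc; push Not at hc; nlinarith
    rw [abs_of_neg h', abs_of_pos a1, abs_of_neg a2]; ring
  · have a1 : f x < 0 := by by_contra hc; push Not at hc; nlinarith
    have a2 : 0 < x + f x := by by_contra hc; push Not at hc; nlinarith
    rw [abs_of_pos h', abs_of_neg a1, abs_of_pos a2]; ring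

theorem Contr.f_ne (h : Contr f δ) {x : ℝ} (hx : x ≠ 0) (hxd : |x| < δ) : f x ≠ 0 := by
  intro h0
  have := h.hneg x hx hxd
  rw [h0] at this
  simp at this

theorem Contr.T_ne (h : Contr f δ) {x : ℝ} (hx : x ≠ 0) (hxd : |x| < δ) : x + f x ≠ 0 := by
  intro h0
  have := h.hpos x hx hxd
  rw [h0] at this
  simp at this

theorem Contr.f_lt (h : Contr f δ) {x : ℝ} (hx : x ≠ 0) (hxd : |x| < δ) : |f x| < |x| := by
  have := h.abs hx hxd
  have := abs_pos.2 (h.T_ne hx hxd)
  linarith

theorem Contr.T_lt (h : Contr f δ) {x : ℝ} (hx : x ≠ 0) (hxd : |x| < δ) :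
    |x + f x| < |x| := by
  have := h.abs hx hxd
  have := abs_pos.2 (h.f_ne hx hxd)
  linarith

theorem Contr.iter (h : Contr f δ) {x : ℝ} (hx : x ≠ 0) (hxd : |x| < δ) (k : ℕ) :
    (fun y => y + f y)^[k] x ≠ 0 ∧ |(fun y => y + f y)^[k] x| < δ := by
  induction k with
  | zero => exact ⟨hx, hxd⟩
  | succ k ih =>
    rw [Function.iterate_succ_apply']
    exact ⟨h.T_ne ih.1 ih.2, (h.T_lt ih.1 ih.2).trans ih.2⟩

theorem Contr.carr_props (h : Contr f δ) {x : ℝ} (hx : x ≠ 0) (hxd : |x| < δ) :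
    ∀ n k, carr f x n k ≠ 0 ∧ |carr f x n k| < δ ∧
      carr f x n k + f (carr f x n k) = carr f x n (k + 1)
  | 0, k => by
      obtain ⟨h1, h2⟩ := h.iter hx hxd k
      refine ⟨h1, h2, ?_⟩
      show _ = (fun y => y + f y)^[k + 1] x
      rw [Function.iterate_succ_apply']
      rfl
  | (n + 1), k => by
      obtain ⟨h1, h2, h3⟩ := h.carr_props hx hxd n k
      refine ⟨h.f_ne h1 h2, (h.f_lt h1 h2).trans h2, ?_⟩
      show f (carr f x n k) + f (f (carr f x n k)) = f (carr f x n (k + 1))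
      rw [← h3, h.heq]

theorem Contr.carr_rec (h : Contr f δ) {x : ℝ} (hx : x ≠ 0) (hxd : |x| < δ) (n k : ℕ) :
    |carr f x n k| = |carr f x (n + 1) k| + |carr f x n (k + 1)| := by
  obtain ⟨h1, h2, h3⟩ := h.carr_props hx hxd n k
  rw [← h3]
  exact h.abs h1 h2

theorem Contr.conv_T (h : Contr f δ) {x : ℝ} (hx : x ≠ 0) (hxd : |x| < δ) :
    |x + f x| ^ 2 ≤ |x| * |(x + f x) + f (x + f x)| :=
  logconvex (a := fun n k => |carr f x n k|) (fun _ _ => abs_nonneg _)
    (fun n k => h.carr_rec hx hxd n k) (abs_pos.2 hx)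

theorem Contr.conv_f (h : Contr f δ) {x : ℝ} (hx : x ≠ 0) (hxd : |x| < δ) :
    |f x| ^ 2 ≤ |x| * |f (f x)| :=
  logconvex' (a := fun n k => |carr f x n k|) (fun _ _ => abs_nonneg _)
    (fun n k => h.carr_rec hx hxd n k) (abs_pos.2 hx)

/-- The ratio. -/
noncomputable def rho (f : ℝ → ℝ) (x : ℝ) : ℝ := |x + f x| / |x|

theorem Contr.rho_T (h : Contr f δ) {x : ℝ} (hx : x ≠ 0) (hxd : |x| < δ) :
    rho f x ≤ rho f (x + f x) := by
  unfold rho
  rw [div_le_div_iff₀ (abs_pos.2 hx) (abs_pos.2 (h.T_ne hx hxd))]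
  have := h.conv_T hx hxd
  nlinarith

theorem Contr.rho_f (h : Contr f δ) {x : ℝ} (hx : x ≠ 0) (hxd : |x| < δ) :
    rho f (f x) ≤ rho f x := by
  unfold rho
  have hf0 := h.f_ne hx hxd
  have hfd := (h.f_lt hx hxd).trans hxd
  rw [div_le_div_iff₀ (abs_pos.2 hf0) (abs_pos.2 hx)]
  have h1 := h.conv_f hx hxd
  have h2 := h.abs hx hxd
  have h3 := h.abs hf0 hfd
  have e1 : |f x + f (f x)| = |f x| - |f (f x)| := by linarith
  have e2 : |x + f x| = |x| - |f x| := by linarith
  rw [e1, e2]
  nlinarith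

theorem Contr.Tpos (h : Contr f δ) {x : ℝ} (hx : 0 < x) (hxd : x < δ) : 0 < x + f x := by
  have := h.hpos x hx.ne' (by rwa [abs_of_pos hx])
  by_contra hc
  push Not at hc
  nlinarith

theorem Contr.fneg (h : Contr f δ) {x : ℝ} (hx : 0 < x) (hxd : x < δ) : f x < 0 := by
  have := h.hneg x hx.ne' (by rwa [abs_of_pos hx])
  by_contra hc
  push Not at hc
  nlinarith

theorem Contr.rho_pos_eq (h : Contr f δ) {x : ℝ} (hx : 0 < x) (hxd : x < δ) :
    x + f x = rho f x * x := by
  unfold rho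
  rw [abs_of_pos hx, abs_of_pos (h.Tpos hx hxd), div_mul_cancel₀ _ hx.ne']

theorem Contr.rho_pos (h : Contr f δ) {x : ℝ} (hx : x ≠ 0) (hxd : |x| < δ) :
    0 < rho f x := div_pos (abs_pos.2 (h.T_ne hx hxd)) (abs_pos.2 hx)

theorem Contr.rho_lt (h : Contr f δ) {x : ℝ} (hx : x ≠ 0) (hxd : |x| < δ) :
    rho f x < 1 := by
  unfold rho
  rw [div_lt_one (abs_pos.2 hx)]
  exact h.T_lt hx hxd

theorem Contr.exists_min (h : Contr f δ) :
    ∃ b, 0 < b ∧ b ≤ δ / 2 ∧ ∀ x, 0 < x → x ≤ δ / 2 → rho f b ≤ rho f x := by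
  set d := δ / 2 with hd
  have hd0 : 0 < d := by have := h.hδ; linarith
  have hdd : d < δ := by have := h.hδ; linarith
  have hTd := h.Tpos hd0 hdd
  have hfd := h.fneg hd0 hdd
  set e := d + f d with he
  have hed : e < d := by linarith
  have hcont : ContinuousOn (rho f) (Icc e d) := by
    apply ContinuousOn.div
    · exact (h.toSol.hT.abs).continuousOn
    · exact continuous_abs.continuousOn
    · intro x hx h0
      have := hx.1
      rw [abs_eq_zero] at h0
      linarith
  obtain ⟨b, hb, hbmin⟩ := isCompact_Icc.exists_isMinOn ⟨d, hed.le, le_refl _⟩ hcont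
  have hb0 : 0 < b := lt_of_lt_of_le hTd hb.1
  refine ⟨b, hb0, hb.2, ?_⟩
  intro y hy hyd
  by_contra hcon
  push Not at hcon
  have hstep : ∀ x, 0 < x → x ≤ d → rho f x ≤ rho f y → x < e := by
    intro x hx hxd hr
    by_contra hc
    push Not at hc
    have := isMinOn_iff.1 hbmin x ⟨hc, hxd⟩
    linarith
  have hypos : 0 < rho f y := h.rho_pos hy.ne' (by rw [abs_of_pos hy]; linarith)
  have hylt : rho f y < 1 := h.rho_lt hy.ne' (by rw [abs_of_pos hy]; linarith)
  have hind : ∀ m : ℕ, ∃ x, 0 < x ∧ x < e ∧ rho f x ≤ rho f y ∧ y ≤ rho f y ^ m * x := by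
    intro m
    induction m with
    | zero => exact ⟨y, hy, hstep y hy hyd le_rfl, le_rfl, by simp⟩
    | succ m ih =>
      obtain ⟨x, hx, hxe, hxr, hxg⟩ := ih
      have hmem : x ∈ Icc ((fun y => y + f y) 0) ((fun y => y + f y) d) := by
        simp only [h.toSol.zero, add_zero]
        exact ⟨hx.le, hxe.le⟩
      obtain ⟨z, hz, hzT⟩ := intermediate_value_Icc hd0.le (h.toSol.hT.continuousOn) hmem
      simp only at hzT
      have hz0 : 0 < z := by
        rcases hz.1.eq_or_lt with h' | h'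
        · rw [← h', h.toSol.zero, add_zero] at hzT
          linarith
        · exact h'
      have hzd : |z| < δ := by rw [abs_of_pos hz0]; linarith [hz.2]
      have h1 := h.rho_T hz0.ne' hzd
      rw [hzT] at h1
      have h2 := h1.trans hxr
      refine ⟨z, hz0, hstep z hz0 hz.2 h2, h2, ?_⟩
      have h3 := h.rho_pos_eq hz0 (by linarith [hz.2])
      rw [hzT] at h3
      calc y ≤ rho f y ^ m * x := hxg
        _ ≤ rho f y ^ m * (rho f y * z) := by
            apply mul_le_mul_of_nonneg_left _ (by positivity)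
            rw [h3]
            exact mul_le_mul_of_nonneg_right h2 hz0.le
        _ = rho f y ^ (m + 1) * z := by ring
  obtain ⟨m, hm⟩ := exists_pow_lt_of_lt_one (div_pos hy hTd) hylt
  obtain ⟨x, hx, hxe, -, hxg⟩ := hind m
  rw [lt_div_iff₀ hTd] at hm
  have : rho f y ^ m * x ≤ rho f y ^ m * e :=
    mul_le_mul_of_nonneg_left hxe.le (by positivity)
  linarith

theorem Contr.linear_pos (h : Contr f δ) :
    ∃ lam, 0 < lam ∧ lam < 1 ∧ ∃ η > 0, ∀ x, 0 ≤ x → x ≤ η → f x = -(1 - lam) * x := by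
  obtain ⟨b, hb, hbd, hmin⟩ := h.exists_min
  have hδ := h.hδ
  have hbδ : b < δ := by linarith
  have hbabs : |b| < δ := by rw [abs_of_pos hb]; exact hbδ
  set lam := rho f b with hlam
  have hl0 : 0 < lam := h.rho_pos hb.ne' hbabs
  have hl1 : lam < 1 := h.rho_lt hb.ne' hbabs
  -- equality
  have hfb0 := h.f_ne hb.ne' hbabs
  have hfbd := (h.f_lt hb.ne' hbabs).trans hbabs
  have hffb0 := h.f_ne hfb0 hfbd
  have hffb_lt := h.f_lt hfb0 hfbd
  have hfb_lt := h.f_lt hb.ne' hbabs
  have hffpos : 0 < f (f b) := by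
    have h1 := h.fneg hb hbδ
    have h2 := h.hneg _ hfb0 hfbd
    by_contra hc
    push Not at hc
    nlinarith
  have hff_le : f (f b) ≤ δ / 2 := by
    rw [abs_of_pos hffpos] at hffb_lt
    rw [abs_of_pos hb] at hfb_lt
    linarith
  have r1 := h.rho_f hb.ne' hbabs
  have r2 := h.rho_f hfb0 hfbd
  have r3 := hmin _ hffpos hff_le
  have req : rho f (f b) = lam := le_antisymm r1 (by linarith)
  have hEQ : |b| * |f (f b)| ≤ |f b| ^ 2 := by
    have e1 := h.abs hb.ne' hbabs
    have e2 := h.abs hfb0 hfbd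
    unfold rho at req hlam
    rw [hlam, div_eq_div_iff (abs_pos.2 hfb0).ne' (abs_pos.2 hb.ne').ne'] at req
    have e3 : |f b + f (f b)| = |f b| - |f (f b)| := by linarith
    have e4 : |b + f b| = |b| - |f b| := by linarith
    rw [e3, e4] at req
    nlinarith
  have hgeo := geometric' (a := fun n k => |carr f b n k|) (fun _ _ => abs_nonneg _)
    (fun n k => h.carr_rec hb.ne' hbabs n k) (abs_pos.2 hb.ne') hEQ
  set T : ℝ → ℝ := fun y => y + f y with hT
  have hTcont : Continuous T := h.toSol.hT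
  have hT0 : T 0 = 0 := by simp [hT, h.toSol.zero]
  have hTpos : ∀ k x, 0 < x → x < δ → 0 < T^[k] x ∧ T^[k] x ≤ x := by
    intro k
    induction k with
    | zero => intro x hx _; exact ⟨hx, le_refl _⟩
    | succ k ih =>
      intro x hx hxd
      rw [Function.iterate_succ_apply]
      have h1 : 0 < T x := h.Tpos hx hxd
      have h2 : T x < x := by
        have := h.fneg hx hxd
        simp only [hT]; linarith
      have := ih (T x) h1 (h2.trans hxd)
      exact ⟨this.1, this.2.trans h2.le⟩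
  have hTb : ∀ k, T^[k] b = b * lam ^ k := by
    intro k
    have h1 := hgeo 0 k
    have h2 : carr f b 0 k = T^[k] b := rfl
    simp only [h2, pow_zero, mul_one] at h1
    have h3 : |carr f b 0 0| = b := by show |b| = b; exact abs_of_pos hb
    have h4 : |carr f b 1 0| = |f b| := rfl
    rw [h3, h4, abs_of_pos (hTpos k b hb hbδ).1] at h1
    rw [h1]
    congr 2
    rw [hlam]
    unfold rho
    have e1 := h.abs hb.ne' hbabs
    rw [abs_of_pos hb] at e1 ⊢
    rw [eq_div_iff hb.ne', sub_mul, div_mul_cancel₀ _ hb.ne']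
    linarith
  -- comparison
  have hcomp : ∀ k z, 0 < z → z ≤ T^[k] b → T z ≤ T^[k + 1] b := by
    intro k z hz hzb
    by_contra hc
    push Not at hc
    have hTkb := hTpos k b hb hbδ
    have hw := (hTpos (k + 1) b hb hbδ).1
    have hmem : T^[k + 1] b ∈ Icc (T 0) (T z) := ⟨by rw [hT0]; exact hw.le, hc.le⟩
    obtain ⟨z', hz', hz'T⟩ := intermediate_value_Icc hz.le hTcont.continuousOn hmem
    have hz'0 : 0 < z' := by
      rcases hz'.1.eq_or_lt with h' | h'
      · rw [← h', hT0] at hz'T; linarith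
      · exact h'
    have hz'z : z' < z := by
      rcases hz'.2.eq_or_lt with h' | h'
      · rw [h'] at hz'T; linarith
      · exact h'
    have hz'd : z' ≤ δ / 2 := by linarith [hTkb.2]
    have hz'δ : z' < δ := by linarith
    have e1 := h.rho_T hz'0.ne' (by rw [abs_of_pos hz'0]; exact hz'δ)
    have e2 : z' + f z' = T^[k + 1] b := hz'T
    have e3 : rho f (T^[k + 1] b) = lam := by
      have h5 : (T^[k + 1] b) + f (T^[k + 1] b) = T^[k + 1 + 1] b := by
        rw [Function.iterate_succ_apply' T (k + 1)]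
      unfold rho
      rw [h5, hTb, hTb, abs_of_pos (by positivity), abs_of_pos (by positivity)]
      rw [div_eq_iff (by positivity)]
      ring
    rw [e2, e3] at e1
    have e4 := hmin z' hz'0 hz'd
    have e5 : rho f z' = lam := le_antisymm e1 e4
    have e6 := h.rho_pos_eq hz'0 hz'δ
    rw [e2, e5, hTb, pow_succ] at e6
    have e7 : z' = b * lam ^ k := by
      have : lam * (b * lam ^ k) = lam * z' := by linarith
      exact (mul_left_cancel₀ hl0.ne' this).symm
    rw [← hTb] at e7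
    linarith
  refine ⟨lam, hl0, hl1, b, hb, ?_⟩
  intro x hx hxb
  rcases hx.eq_or_lt with h' | h'
  · rw [← h', h.toSol.zero, mul_zero]
  have hxδ : x < δ := by linarith
  have hup : ∀ k, T^[k] x ≤ T^[k] b := by
    intro k
    induction k with
    | zero => exact hxb
    | succ k ih =>
      rw [Function.iterate_succ_apply' T k x]
      exact hcomp k _ (hTpos k x h' hxδ).1 ih
  have hrr : ∀ k, rho f x ≤ rho f (T^[k] x) := by
    intro k
    induction k with
    | zero => exact le_refl _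
    | succ k ih =>
      rw [Function.iterate_succ_apply' T k x]
      have hp := hTpos k x h' hxδ
      exact ih.trans (h.rho_T hp.1.ne' (by rw [abs_of_pos hp.1]; linarith [hp.2]))
  have hrpos : 0 < rho f x := h.rho_pos h'.ne' (by rw [abs_of_pos h']; exact hxδ)
  have hlow : ∀ k, rho f x ^ k * x ≤ T^[k] x := by
    intro k
    induction k with
    | zero => simp
    | succ k ih =>
      rw [Function.iterate_succ_apply' T k x]
      have hp := hTpos k x h' hxδ
      have h5 := h.rho_pos_eq hp.1 (by linarith [hp.2])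
      have h6 : T (T^[k] x) = rho f (T^[k] x) * T^[k] x := h5
      rw [h6]
      calc rho f x ^ (k + 1) * x = rho f x * (rho f x ^ k * x) := by ring
        _ ≤ rho f x * T^[k] x := mul_le_mul_of_nonneg_left ih hrpos.le
        _ ≤ rho f (T^[k] x) * T^[k] x := mul_le_mul_of_nonneg_right (hrr k) hp.1.le
  have hle : rho f x ≤ lam := by
    by_contra hc
    push Not at hc
    have : lam / rho f x < 1 := by rw [div_lt_one hrpos]; exact hc
    obtain ⟨m, hm⟩ := exists_pow_lt_of_lt_one (div_pos h' hb) this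
    rw [div_pow, div_lt_div_iff₀ (by positivity) hb] at hm
    have h7 := hlow m
    have h8 := hup m
    rw [hTb] at h8
    linarith
  have heq : rho f x = lam := le_antisymm hle (hmin x h' (by linarith))
  have h9 := h.rho_pos_eq h' hxδ
  rw [heq] at h9
  linarith

theorem Contr.linear (h : Contr f δ) :
    ∃ a, -1 < a ∧ a < 0 ∧ ∃ η > 0, ∀ x, |x| ≤ η → f x = a * x := by
  obtain ⟨l₁, h10, h11, η₁, hη₁, hl1⟩ := h.linear_pos
  obtain ⟨l₂, h20, h21, η₂, hη₂, hl2⟩ := h.neg.linear_pos
  have hl2' : ∀ x, x ≤ 0 → -η₂ ≤ x → f x = -(1 - l₂) * x := by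
    intro x hx hx2
    have := hl2 (-x) (by linarith) (by linarith)
    simp only [neg_neg] at this
    linarith
  -- commutation
  set x := min η₁ η₂ with hx
  have hx0 : 0 < x := lt_min hη₁ hη₂
  have hx1 : x ≤ η₁ := min_le_left _ _
  have hx2 : x ≤ η₂ := min_le_right _ _
  have e1 : f x = -(1 - l₁) * x := hl1 x hx0.le hx1
  have e2 := h.heq x
  have e3 : x + f x = l₁ * x := by rw [e1]; ring
  have e4 : f (l₁ * x) = -(1 - l₁) * (l₁ * x) := hl1 _ (by positivity) (by nlinarith)
  have e5 : f (f x) = -(1 - l₂) * f x := by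
    apply hl2'
    · rw [e1]; nlinarith
    · rw [e1]; nlinarith
  rw [e3, e4, e5, e1] at e2
  have e6 : l₁ = l₂ := by
    have : (1 - l₁) * x * (l₁ - l₂) = 0 := by linarith
    rcases mul_eq_zero.1 this with h' | h'
    · exfalso
      have : 0 < (1 - l₁) * x := mul_pos (by linarith) hx0
      linarith
    · linarith
  refine ⟨-(1 - l₁), by linarith, by linarith, x, hx0, ?_⟩
  intro y hy
  rcases le_total 0 y with h' | h'
  · rw [abs_of_nonneg h'] at hy
    exact hl1 y h' (hy.trans hx1)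
  · rw [abs_of_nonpos h'] at hy
    rw [e6]
    exact hl2' y h' (by linarith)

end Pool.Agent.W760.GraphAdd
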