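import Mathlib
import Pool.Agent.W760.GraphCon

/-!
Functions additive on their graphs: accumulation of zeros, and extension of linearity.
-/

namespace Pool.Agent.W760.GraphAdd

open Set Filter Topology

variable {f : ℝ → ℝ}

theorem zero_right {h : ℝ → ℝ} (hh : Continuous h) {e : ℝ}
    (H : ∀ ε > 0, ∃ x s v : ℝ, |x - e| < ε ∧ 0 < s ∧ s < ε ∧ |v| < ε ∧
      ∀ m : ℕ, h (x + m * s) = v) : ∀ y, e < y → h y = 0 := by
  intro y hy
  by_contra hne
  have hpos := abs_pos.2 hne
  obtain ⟨δ, hδ, hδ2⟩ := (Metric.continuousAt_iff.1 (hh.continuousAt (x := y)))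
    (|h y| / 2) (by positivity)
  obtain ⟨x, s, v, hx, hs, hs2, hv, hprog⟩ := H (min (min δ (|h y| / 2)) (y - e))
    (lt_min (lt_min hδ (by positivity)) (by linarith))
  have hsδ : s < δ := lt_of_lt_of_le hs2 ((min_le_left _ _).trans (min_le_left _ _))
  have hvh : |v| < |h y| / 2 := lt_of_lt_of_le hv ((min_le_left _ _).trans (min_le_right _ _))
  have hxy : |x - e| < y - e := lt_of_lt_of_le hx (min_le_right _ _)
  have hxy' : x < y := by linarith [(abs_lt.1 hxy).2]
  have hq : 0 ≤ (y - x) / s := div_nonneg (by linarith) hs.le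
  set m := ⌊(y - x) / s⌋₊ with hm
  have h1 : (m : ℝ) * s ≤ y - x := by
    have := Nat.floor_le hq
    rwa [le_div_iff₀ hs] at this
  have h2 : y - x < (m + 1 : ℝ) * s := by
    have := Nat.lt_floor_add_one ((y - x) / s)
    rwa [div_lt_iff₀ hs] at this
  have h3 : |(x + m * s) - y| < δ := by
    rw [abs_lt]
    constructor <;> nlinarith
  have h4 := hδ2 (x := x + m * s) (by rw [Real.dist_eq]; exact h3)
  rw [Real.dist_eq, hprog m] at h4
  have h5 : |h y| ≤ |v - h y| + |v| := by
    have := abs_sub_abs_le_abs_sub (h y) v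
    rw [abs_sub_comm] at this
    linarith
  linarith

theorem bdry_aux {g : ℝ → ℝ} (hg : Continuous g) {p q : ℝ} (hqp : q < p) (hp : 0 < g p)
    (hq : g q = 0) :
    ∃ e, q ≤ e ∧ e < p ∧ g e = 0 ∧ ∀ ε > 0, ∃ x, |x - e| < ε ∧ 0 < g x := by
  have hcomp : IsCompact (Icc q p ∩ {x | g x ≤ 0}) :=
    isCompact_Icc.inter_right (isClosed_le hg continuous_const)
  obtain ⟨e, ⟨he1, he2⟩, he3⟩ := hcomp.exists_isGreatest ⟨q, ⟨le_refl _, hqp.le⟩, hq.le⟩
  have hep : e < p := by
    rcases he1.2.eq_or_lt with h | h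
    · rw [h] at he2
      exact absurd he2 (not_le.2 hp)
    · exact h
  have hpos : ∀ x, e < x → x ≤ p → 0 < g x := by
    intro x hx hxp
    by_contra hc
    push Not at hc
    have := he3 ⟨⟨he1.1.trans hx.le, hxp⟩, hc⟩
    linarith
  have he0 : g e = 0 := by
    rcases (show g e ≤ 0 from he2).eq_or_lt with h | h
    · exact h
    · exfalso
      obtain ⟨x, hx, hx0⟩ := intermediate_value_Icc hep.le hg.continuousOn
        (show (0 : ℝ) ∈ Icc (g e) (g p) from ⟨h.le, hp.le⟩)
      rcases hx.1.eq_or_lt with h' | h'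
      · rw [← h'] at hx0; linarith
      · have := hpos x h' hx.2; linarith
  refine ⟨e, he1.1, hep, he0, fun ε hε => ?_⟩
  refine ⟨min (e + ε / 2) p, ?_, hpos _ (lt_min (by linarith) hep) (min_le_right _ _)⟩
  have h1 : e < min (e + ε / 2) p := lt_min (by linarith) hep
  have h2 : min (e + ε / 2) p ≤ e + ε / 2 := min_le_left _ _
  rw [abs_lt]
  constructor <;> linarith

theorem bdry_aux' {g : ℝ → ℝ} (hg : Continuous g) {p q : ℝ} (hqp : p < q) (hp : 0 < g p)
    (hq : g q = 0) :
    ∃ e, e ≤ q ∧ p < e ∧ g e = 0 ∧ ∀ ε > 0, ∃ x, |x - e| < ε ∧ 0 < g x := by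
  obtain ⟨e, h1, h2, h3, h4⟩ := bdry_aux (g := fun x => g (-x)) (hg.comp continuous_neg)
    (p := -p) (q := -q) (by linarith) (by simpa using hp) (by simpa using hq)
  refine ⟨-e, by linarith, by linarith, h3, fun ε hε => ?_⟩
  obtain ⟨x, hx, hx2⟩ := h4 ε hε
  refine ⟨-x, ?_, hx2⟩
  rw [show -x - -e = -(x - e) by ring, abs_neg]
  exact hx

theorem level {g : ℝ → ℝ} (hg : Continuous g) {e x z : ℝ} (he : g e = 0) (hz0 : 0 < z)
    (hz : z ≤ g x) : ∃ x', |x' - e| ≤ |x - e| ∧ g x' = z := by
  have hmem : z ∈ uIcc (g e) (g x) := by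
    rw [he, mem_uIcc]; left; exact ⟨hz0.le, hz⟩
  obtain ⟨x', hx', hx'2⟩ := intermediate_value_uIcc hg.continuousOn hmem
  exact ⟨x', Set.abs_sub_left_of_mem_uIcc hx', hx'2⟩

theorem Sol.progression (h : Sol f) {x z : ℝ} (hx : f x = z) (hz : f z = 0) (m : ℕ) :
    f (x + m * z) = z := by
  induction m with
  | zero => simpa using hx
  | succ m ih =>
    have h1 := h.heq (x + m * z)
    rw [ih, hz, add_zero] at h1
    have e : x + ((m + 1 : ℕ) : ℝ) * z = x + m * z + z := by push_cast; ring
    rw [e]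
    exact h1

/-- If zeros of `f` accumulate at `0` from the right and `f` is somewhere positive, then `f`
vanishes on the positive half-line. -/
theorem Sol.zeros (h : Sol f) (hz : ∀ ε > 0, ∃ z, 0 < z ∧ z < ε ∧ f z = 0) {p : ℝ}
    (hp : 0 < f p) : ∀ y, 0 < y → f y = 0 := by
  have key : ∀ e, f e = 0 → (∀ ε > 0, ∃ x, |x - e| < ε ∧ 0 < f x) → ∀ y, e < y → f y = 0 := by
    intro e he hacc
    apply zero_right h.hf
    intro ε hε
    obtain ⟨x, hx, hx0⟩ := hacc ε hε
    obtain ⟨z, hz0, hz1, hz2⟩ := hz (min ε (f x)) (lt_min hε hx0)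
    obtain ⟨x', hx', hx'2⟩ := level h.hf he hz0 (hz1.le.trans (min_le_right _ _))
    refine ⟨x', z, z, lt_of_le_of_lt hx' hx, hz0, lt_of_lt_of_le hz1 (min_le_left _ _), ?_,
      fun m => h.progression hx'2 hz2 m⟩
    rw [abs_of_pos hz0]
    exact lt_of_lt_of_le hz1 (min_le_left _ _)
  have hp0 : p ≠ 0 := by
    rintro rfl
    rw [h.zero] at hp
    exact lt_irrefl _ hp
  rcases lt_or_gt_of_ne hp0 with hneg | hpos
  · obtain ⟨e, h1, h2, h3, h4⟩ := bdry_aux' h.hf hneg hp h.zero
    intro y hy
    exact key e h3 h4 y (by linarith)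
  · obtain ⟨e, h1, h2, h3, h4⟩ := bdry_aux h.hf hpos hp h.zero
    have := key e h3 h4 p h2
    linarith

/-- If zeros of `x + f x` accumulate at `0`, then `f x = -x`. -/
theorem Sol.zerosT_aux (h : Sol f)
    (hw : ∀ ε > 0, ∃ w, 0 < w ∧ w < ε ∧ w + f w = 0 ∧ -w + f (-w) = 0) {p : ℝ} :
    p + f p ≤ 0 := by
  by_contra hp
  push Not at hp
  set T : ℝ → ℝ := fun x => x + f x with hT
  have hTc : Continuous T := h.hT
  have hT0 : T 0 = 0 := by simp [hT, h.zero]
  have stepP : ∀ w, T w = 0 → ∀ y, T y = w → T (w - y) = -w := by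
    intro w hw y hy
    have h1 := h.heq y
    simp only [hT] at hw hy ⊢
    rw [hy] at h1
    have h2 : f y = w - y := by linarith
    rw [h2] at h1
    linarith
  have stepL : ∀ w, T w = 0 → T (-w) = 0 → ∀ y, T y = w → ∀ m : ℕ, T (y - m * (2 * w)) = w := by
    intro w hw hw' y hy m
    induction m with
    | zero => simpa using hy
    | succ m ih =>
      have h1 := stepP w hw _ ih
      have h2 := stepP (-w) hw' _ h1
      rw [neg_neg] at h2
      have e : y - ((m + 1 : ℕ) : ℝ) * (2 * w) = -w - (w - (y - m * (2 * w))) := by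
        push_cast; ring
      rw [e]
      exact h2
  have stepR : ∀ w, T w = 0 → T (-w) = 0 → ∀ y, T y = -w → ∀ m : ℕ,
      T (y + m * (2 * w)) = -w := by
    intro w hw hw' y hy m
    have h1 := stepL (-w) hw' (by rwa [neg_neg]) y hy m
    have e : y + (m : ℝ) * (2 * w) = y - m * (2 * -w) := by ring
    rw [e]
    exact h1
  have hp0 : p ≠ 0 := by
    rintro rfl
    have : T 0 = 0 := hT0
    simp only [hT] at this
    linarith
  rcases lt_or_gt_of_ne hp0 with hneg | hpos
  · obtain ⟨e, h1, h2, h3, h4⟩ := bdry_aux' hTc hneg hp hT0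
    have := zero_right (h := fun y => T (-y)) (hTc.comp continuous_neg) (e := -e) (by
      intro ε hε
      obtain ⟨x, hx, hx0⟩ := h4 ε hε
      obtain ⟨w, hw0, hw1, hw2, hw3⟩ := hw (min (ε / 2) (T x)) (lt_min (by positivity) hx0)
      have hwε : w < ε / 2 := lt_of_lt_of_le hw1 (min_le_left _ _)
      obtain ⟨x', hx', hx'2⟩ := level hTc h3 hw0 (hw1.le.trans (min_le_right _ _))
      refine ⟨-x', 2 * w, w, ?_, by linarith, by linarith, ?_, fun m => ?_⟩
      · rw [show -x' - -e = -(x' - e) by ring, abs_neg]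
        exact lt_of_le_of_lt hx' hx
      · rw [abs_of_pos hw0]; linarith
      · have := stepL w hw2 hw3 x' hx'2 m
        show T (-(-x' + m * (2 * w))) = w
        rw [show -(-x' + (m : ℝ) * (2 * w)) = x' - m * (2 * w) by ring]
        exact this) (-p) (by linarith)
    simp only [neg_neg] at this
    simp only [hT] at this
    linarith
  · obtain ⟨e, h1, h2, h3, h4⟩ := bdry_aux hTc hpos hp hT0
    have := zero_right (h := T) hTc (e := -e) (by
      intro ε hε
      obtain ⟨x, hx, hx0⟩ := h4 (ε / 2) (by positivity)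
      obtain ⟨w, hw0, hw1, hw2, hw3⟩ := hw (min (ε / 2) (T x)) (lt_min (by positivity) hx0)
      have hwε : w < ε / 2 := lt_of_lt_of_le hw1 (min_le_left _ _)
      obtain ⟨x', hx', hx'2⟩ := level hTc h3 hw0 (hw1.le.trans (min_le_right _ _))
      have hx'e := lt_of_le_of_lt hx' hx
      refine ⟨w - x', 2 * w, -w, ?_, by linarith, by linarith, ?_, fun m => ?_⟩
      · have := abs_lt.1 hx'e
        rw [abs_lt]
        constructor <;> linarith [this.1, this.2]
      · rw [abs_neg, abs_of_pos hw0]; linarith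
      · exact stepR w hw2 hw3 (w - x') (stepP w hw2 x' hx'2) m) p (by linarith)
    simp only [hT] at this
    linarith

theorem Sol.zerosT (h : Sol f) (hw : ∀ ε > 0, ∃ w, w ≠ 0 ∧ |w| < ε ∧ w + f w = 0) (x : ℝ) :
    f x = -x := by
  have key : ∀ w, w + f w = 0 → -w + f (-w) = 0 := by
    intro w hw
    have h1 := h.heq w
    have h2 : f w = -w := by linarith
    rw [hw, h.zero, h2] at h1
    linarith
  have hw' : ∀ ε > 0, ∃ w, 0 < w ∧ w < ε ∧ w + f w = 0 ∧ -w + f (-w) = 0 := by
    intro ε hε
    obtain ⟨w, h0, h1, h2⟩ := hw ε hε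
    rcases lt_or_gt_of_ne h0 with hneg | hpos
    · rw [abs_of_neg hneg] at h1
      exact ⟨-w, by linarith, h1, key w h2, by rw [neg_neg]; exact h2⟩
    · rw [abs_of_pos hpos] at h1
      exact ⟨w, hpos, h1, h2, key w h2⟩
  have h1 := h.zerosT_aux hw' (p := x)
  have h2 := h.neg.zerosT_aux (f := fun x => -f (-x)) (p := -x) (by
    intro ε hε
    obtain ⟨w, h0, h1, h2, h3⟩ := hw' ε hε
    refine ⟨w, h0, h1, by linarith, ?_⟩
    show -w + -f (- -w) = 0
    rw [neg_neg]
    linarith)
  simp only [neg_neg] at h2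
  linarith

/-- Extension of linearity, expanding one-sided case. -/
theorem Sol.extA (h : Sol f) {R η : ℝ} (hR : 0 < R) (hη : 0 < η)
    (hl : ∀ x, 0 ≤ x → x ≤ η → f x = R * x) (x : ℝ) (hx : 0 ≤ x) : f x = R * x := by
  set κ := min (1 + R) (1 + 1 / R) with hκ
  have hκ1 : 1 < κ := lt_min (by linarith) (by have := one_div_pos.2 hR; linarith)
  have hind : ∀ m : ℕ, ∀ x, 0 ≤ x → x ≤ η * κ ^ m → f x = R * x := by
    intro m
    induction m with
    | zero => intro x h0 h1; exact hl x h0 (by simpa using h1)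
    | succ m ih =>
      intro x h0 h1
      set p := η * κ ^ m with hp
      have hp0 : 0 < p := by positivity
      have h2 : x ≤ κ * p := by rw [hp]; rw [pow_succ] at h1; linarith
      have h3 : x ≤ (1 + R) * p := h2.trans (mul_le_mul_of_nonneg_right (min_le_left _ _) hp0.le)
      have h4 : x ≤ (1 + 1 / R) * p :=
        h2.trans (mul_le_mul_of_nonneg_right (min_le_right _ _) hp0.le)
      set y := x / (1 + R) with hy
      have hRp : 0 < 1 + R := by linarith
      have hxy : x = (1 + R) * y := by rw [hy]; field_simp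
      have hy0 : 0 ≤ y := div_nonneg h0 hRp.le
      have hyp : y ≤ p := by rw [hy, div_le_iff₀ hRp]; linarith
      have hRy : R * y ≤ p := by
        have : R * x ≤ (R + 1) * p := by
          calc R * x ≤ R * ((1 + 1 / R) * p) := mul_le_mul_of_nonneg_left h4 hR.le
            _ = (R + 1) * p := by field_simp
        rw [hxy] at this
        have h5 : (1 + R) * (R * y) ≤ (1 + R) * p := by linarith
        exact le_of_mul_le_mul_left h5 hRp
      have e1 := ih y hy0 hyp
      have e2 := ih (R * y) (by positivity) hRy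
      have e3 := h.heq y
      rw [e1, e2] at e3
      rw [hxy, show (1 + R) * y = y + R * y by ring, e3]
      ring
  obtain ⟨m, hm⟩ := pow_unbounded_of_one_lt (x / η) hκ1
  rw [div_lt_iff₀ hη] at hm
  exact hind m x hx (by linarith)

/-- Extension of linearity, expanding reversing case. -/
theorem Sol.extB (h : Sol f) {R η : ℝ} (hR : 0 < R) (hη : 0 < η)
    (hl : ∀ x, |x| ≤ η → f x = -(1 + R) * x) (x : ℝ) : f x = -(1 + R) * x := by
  set κ := min (1 + R) (1 + 1 / R) with hκ
  have hκ1 : 1 < κ := lt_min (by linarith) (by have := one_div_pos.2 hR; linarith)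
  have hind : ∀ m : ℕ, ∀ x, |x| ≤ η * κ ^ m → f x = -(1 + R) * x := by
    intro m
    induction m with
    | zero => intro x h1; exact hl x (by simpa using h1)
    | succ m ih =>
      intro x h1
      set p := η * κ ^ m with hp
      have hp0 : 0 < p := by positivity
      have h2 : |x| ≤ κ * p := by rw [hp]; rw [pow_succ] at h1; linarith
      have h3 : |x| ≤ (1 + R) * p :=
        h2.trans (mul_le_mul_of_nonneg_right (min_le_left _ _) hp0.le)
      have h4 : |x| ≤ (1 + 1 / R) * p :=
        h2.trans (mul_le_mul_of_nonneg_right (min_le_right _ _) hp0.le)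
      set y := -x / (1 + R) with hy
      have hRp : 0 < 1 + R := by linarith
      have hxy : x = -(1 + R) * y := by rw [hy]; field_simp
      have hxabs : |x| = (1 + R) * |y| := by
        rw [hxy, abs_mul, abs_neg, abs_of_pos hRp]
      have hyp : |y| ≤ p := by
        rw [hxabs] at h3
        exact le_of_mul_le_mul_left h3 hRp
      have hRy : |(-R) * y| ≤ p := by
        rw [abs_mul, abs_neg, abs_of_pos hR]
        have : R * |x| ≤ (R + 1) * p := by
          calc R * |x| ≤ R * ((1 + 1 / R) * p) := mul_le_mul_of_nonneg_left h4 hR.le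
            _ = (R + 1) * p := by field_simp
        rw [hxabs] at this
        have h5 : (1 + R) * (R * |y|) ≤ (1 + R) * p := by linarith
        exact le_of_mul_le_mul_left h5 hRp
      have e1 := ih y hyp
      have e2 := ih ((-R) * y) hRy
      have e3 := h.heq y
      rw [e1, show y + -(1 + R) * y = (-R) * y by ring, e2, ← hxy] at e3
      rw [show f x = -(1 + R) * (-R * y) - x by linarith, hxy]
      ring
  obtain ⟨m, hm⟩ := pow_unbounded_of_one_lt (|x| / η) hκ1
  rw [div_lt_iff₀ hη] at hm
  exact hind m x (by linarith)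

/-- Extension of linearity, contracting case: one step. -/
theorem Sol.extC_step (h : Sol f) {a p q : ℝ} (ha : -1 < a) (ha' : a < 0) (hp : 0 < p)
    (hl : ∀ x, |x| ≤ p → f x = a * x) (hpq : p ≤ q) (h1 : -a * q < p) (h2 : (1 + a) * q < p) :
    ∀ x, p ≤ x → x ≤ q → f x = a * x := by
  have hcl : IsClosed ({x : ℝ | f x = a * x} ∩ Icc p q) :=
    (isClosed_eq h.hf (continuous_const.mul continuous_id)).inter isClosed_Icc
  have hsub := hcl.Icc_subset_of_forall_mem_nhdsWithin
    (show p ∈ {x : ℝ | f x = a * x} from hl p (by rw [abs_of_pos hp])) (by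
      rintro x ⟨hx, hx2⟩
      have hx' : f x = a * x := hx
      apply mem_nhdsWithin_of_mem_nhds
      have c1 : ∀ᶠ y in 𝓝 x, |f y| < p := by
        apply (h.hf.abs).continuousAt.eventually_lt continuousAt_const
        rw [hx', abs_of_neg (by nlinarith [hx2.1])]
        nlinarith [hx2.2]
      have c2 : ∀ᶠ y in 𝓝 x, |y + f y| < p := by
        apply (h.hT.abs).continuousAt.eventually_lt continuousAt_const
        rw [hx', abs_of_pos (by nlinarith [hx2.1])]
        nlinarith [hx2.2]
      filter_upwards [c1, c2] with y hy1 hy2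
      have e1 := hl _ hy1.le
      have e2 := hl _ hy2.le
      have e3 := h.heq y
      rw [e1, e2] at e3
      show f y = a * y
      linarith)
  intro x hx1 hx2
  exact hsub ⟨hx1, hx2⟩

theorem Sol.extC (h : Sol f) {a η : ℝ} (ha : -1 < a) (ha' : a < 0) (hη : 0 < η)
    (hl : ∀ x, |x| ≤ η → f x = a * x) (x : ℝ) : f x = a * x := by
  set θ := max (-a) (1 + a) with hθ
  have hθ1 : θ < 1 := max_lt (by linarith) (by linarith)
  have hθ0 : 0 < θ := lt_of_lt_of_le (by linarith) (le_max_left _ _)
  set κ := 2 / (1 + θ) with hκ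
  have hκ1 : 1 < κ := by rw [hκ, one_lt_div (by linarith)]; linarith
  have hκθ : θ * κ < 1 := by
    rw [hκ, mul_div_assoc', div_lt_one (by linarith)]; linarith
  have hind : ∀ m : ℕ, ∀ x, |x| ≤ η * κ ^ m → f x = a * x := by
    intro m
    induction m with
    | zero => intro x h1; exact hl x (by simpa using h1)
    | succ m ih =>
      intro x h1
      set p := η * κ ^ m with hp
      have hp0 : 0 < p := by positivity
      have h2 : |x| ≤ κ * p := by rw [hp]; rw [pow_succ] at h1; linarith
      have hq : p ≤ κ * p := by nlinarith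
      have hq1 : -a * (κ * p) < p := by
        have : -a * (κ * p) ≤ θ * (κ * p) :=
          mul_le_mul_of_nonneg_right (le_max_left _ _) (by positivity)
        nlinarith
      have hq2 : (1 + a) * (κ * p) < p := by
        have : (1 + a) * (κ * p) ≤ θ * (κ * p) :=
          mul_le_mul_of_nonneg_right (le_max_right _ _) (by positivity)
        nlinarith
      have s1 := h.extC_step ha ha' hp0 ih hq hq1 hq2
      have s2 := h.neg.extC_step ha ha' hp0 (fun x hx => by
        have := ih (-x) (by rwa [abs_neg])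
        show -f (-x) = a * x
        rw [this]; ring) hq hq1 hq2
      rcases le_or_gt |x| p with hc | hc
      · exact ih x hc
      · rcases le_total 0 x with hx | hx
        · rw [abs_of_nonneg hx] at hc h2
          exact s1 x hc.le h2
        · rw [abs_of_nonpos hx] at hc h2
          have := s2 (-x) hc.le h2
          simp only [neg_neg] at this
          linarith
  obtain ⟨m, hm⟩ := pow_unbounded_of_one_lt (|x| / η) hκ1
  rw [div_lt_iff₀ hη] at hm
  exact hind m x (by linarith)

end Pool.Agent.W760.GraphAdd
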