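import Mathlib
import Pool.Agent.W760.GraphExp
import Pool.Agent.W760.GraphZero

/-!
Classification of the continuous functions additive on their graphs.
-/

namespace Pool.Agent.W760.GraphAdd

open Set Filter Topology

variable {f : ℝ → ℝ}

/-- Germ trichotomy at `0+`. -/
theorem germ {g : ℝ → ℝ} (hg : Continuous g) :
    (∃ δ > 0, ∀ x, 0 < x → x < δ → 0 < g x) ∨ (∃ δ > 0, ∀ x, 0 < x → x < δ → g x < 0) ∨
      (∀ ε > 0, ∃ z, 0 < z ∧ z < ε ∧ g z = 0) := by
  by_cases hz : ∀ ε > 0, ∃ z, 0 < z ∧ z < ε ∧ g z = 0
  · exact Or.inr (Or.inr hz)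
  · push Not at hz
    obtain ⟨ε, hε, hne⟩ := hz
    have hmid : g (ε / 2) ≠ 0 := hne _ (by positivity) (by linarith)
    have hno : ∀ x, 0 < x → x < ε → (0 : ℝ) ∉ uIcc (g (ε / 2)) (g x) := by
      intro x hx hxε hmem
      obtain ⟨z, hz, hz0⟩ := intermediate_value_uIcc hg.continuousOn hmem
      rw [mem_uIcc] at hz
      rcases hz with h | h
      · exact hne z (by linarith [h.1]) (by linarith [h.2]) hz0
      · exact hne z (by linarith [h.1]) (by linarith [h.2]) hz0
    rcases lt_or_gt_of_ne hmid with hneg | hpos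
    · right; left
      refine ⟨ε, hε, fun x hx hxε => ?_⟩
      by_contra hc
      push Not at hc
      exact hno x hx hxε (mem_uIcc.2 (Or.inl ⟨hneg.le, hc⟩))
    · left
      refine ⟨ε, hε, fun x hx hxε => ?_⟩
      by_contra hc
      push Not at hc
      exact hno x hx hxε (mem_uIcc.2 (Or.inr ⟨hc, hpos.le⟩))

/-- If `f > 0` on `(0, δ)` then `f` is linear on the half-line. -/
theorem Sol.posGerm (h : Sol f) {δ : ℝ} (hδ : 0 < δ) (hpos : ∀ x, 0 < x → x < δ → 0 < f x) :
    ∃ α > 0, ∀ x, 0 ≤ x → f x = α * x := by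
  set g : ℝ → ℝ := fun x => if 0 ≤ x then f x else -f (-x) with hg
  have hgc : Continuous g := by
    apply Continuous.if_le h.hf ((h.hf.comp continuous_neg).neg) continuous_const continuous_id
    intro x hx
    have : x = 0 := hx.symm
    rw [this]
    simp [h.zero]
  have gp : ∀ x, 0 ≤ x → g x = f x := fun x hx => by simp [hg, hx]
  have gn : ∀ x, x < 0 → g x = -f (-x) := fun x hx => by simp [hg, not_le.2 hx]
  have hE : Expd (fun x => x + g x) g δ 1 := by
    refine ⟨continuous_id.add hgc, hgc, hδ, Or.inl rfl, ?_, ?_, ?_, ?_, ?_⟩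
    · simp [gp 0 le_rfl, h.zero]
    · intro x hx
      show g (x + g x) = g x + g (g x)
      rcases lt_trichotomy x 0 with h1 | h1 | h1
      · rw [abs_of_neg h1] at hx
        have hf1 := hpos (-x) (by linarith) hx
        rw [gn x h1, gn (x + -f (-x)) (by linarith), gn (-f (-x)) (by linarith)]
        have := h.heq (-x)
        rw [show -(x + -f (-x)) = -x + f (-x) by ring, this, neg_neg]
        ring
      · rw [h1, gp 0 le_rfl, h.zero, add_zero, gp 0 le_rfl, h.zero, add_zero]
      · rw [abs_of_pos h1] at hx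
        have hf1 := hpos x h1 hx
        rw [gp x h1.le, gp (x + f x) (by linarith), gp (f x) hf1.le]
        exact h.heq x
    · intro x hx0 hx
      show |x + g x| = |x| + |g x|
      rcases lt_or_gt_of_ne hx0 with h1 | h1
      · rw [abs_of_neg h1] at hx
        have hf1 := hpos (-x) (by linarith) hx
        rw [gn x h1, abs_of_neg h1, abs_of_neg (by linarith), abs_of_neg (by linarith)]
        ring
      · rw [abs_of_pos h1] at hx
        have hf1 := hpos x h1 hx
        rw [gp x h1.le, abs_of_pos h1, abs_of_pos (by linarith), abs_of_pos hf1]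
    · intro x hx0 hx
      rcases lt_or_gt_of_ne hx0 with h1 | h1
      · rw [abs_of_neg h1] at hx
        have hf1 := hpos (-x) (by linarith) hx
        rw [gn x h1]
        intro h0
        linarith
      · rw [abs_of_pos h1] at hx
        have hf1 := hpos x h1 hx
        rw [gp x h1.le]
        exact hf1.ne'
    · intro x hx0 hx
      show 0 < 1 * (x * (x + g x))
      rcases lt_or_gt_of_ne hx0 with h1 | h1
      · rw [abs_of_neg h1] at hx
        have hf1 := hpos (-x) (by linarith) hx
        rw [gn x h1, one_mul]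
        nlinarith
      · rw [abs_of_pos h1] at hx
        have hf1 := hpos x h1 hx
        rw [gp x h1.le, one_mul]
        nlinarith
  obtain ⟨R, hR, η, hη, s, hs, hlin⟩ := hE.main
  refine ⟨R, hR, ?_⟩
  have hloc : ∀ y, 0 ≤ y → y ≤ min (η / 2) (δ / 2) → f y = R * y := by
    intro y hy hyη
    have hyη' : y < η := lt_of_le_of_lt (hyη.trans (min_le_left _ _)) (by linarith)
    have hyδ' : y < δ := lt_of_le_of_lt (hyη.trans (min_le_right _ _)) (by linarith)
    rcases hy.eq_or_lt with h0 | h0
    · rw [← h0, h.zero, mul_zero]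
    have hf1 := hpos y h0 hyδ'
    rcases hs with rfl | rfl
    · have := hlin y (by linarith) (by linarith)
      rw [gp y hy, abs_of_pos hf1, abs_of_pos h0] at this
      exact this
    · have := hlin (-y) (by linarith) (by linarith)
      rw [gn (-y) (by linarith), neg_neg, abs_neg, abs_neg, abs_of_pos hf1, abs_of_pos h0] at this
      exact this
  exact fun x hx => h.extA hR (lt_min (by positivity) (by positivity)) hloc x hx

/-- If `f ≥ 0` on the positive half-line then `f` is linear there. -/
theorem Sol.nonnegHalf (h : Sol f) (hnn : ∀ x, 0 ≤ x → 0 ≤ f x) :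
    ∃ α, 0 ≤ α ∧ ∀ x, 0 ≤ x → f x = α * x := by
  rcases germ h.hf with ⟨δ, hδ, h1⟩ | ⟨δ, hδ, h1⟩ | h1
  · obtain ⟨α, hα, h2⟩ := h.posGerm hδ h1
    exact ⟨α, hα.le, h2⟩
  · have := h1 (δ / 2) (by positivity) (by linarith)
    have := hnn (δ / 2) (by positivity)
    linarith
  · refine ⟨0, le_rfl, fun x hx => ?_⟩
    rw [zero_mul]
    by_contra hc
    have hxp : 0 < f x := lt_of_le_of_ne (hnn x hx) (Ne.symm hc)
    have hx0 : 0 < x := by
      rcases hx.eq_or_lt with h0 | h0
      · rw [← h0, h.zero] at hxp
        exact absurd hxp (lt_irrefl _)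
      · exact h0
    exact hc (h.zeros h1 hxp x hx0)

/-- Reversing germs: the expanding case. -/
theorem Sol.revExp (h : Sol f) {δ : ℝ} (hδ : 0 < δ)
    (hf : ∀ x, x ≠ 0 → |x| < δ → x * f x < 0)
    (hT : ∀ x, x ≠ 0 → |x| < δ → x * (x + f x) < 0) :
    ∃ R > 0, ∀ x, f x = -(1 + R) * x := by
  have hE : Expd f (fun x => x + f x) δ (-1) := by
    refine ⟨h.hf, h.hT, hδ, Or.inr rfl, h.zero, fun x _ => (h.heq x).symm, ?_, ?_, ?_⟩
    · intro x hx0 hx
      show |f x| = |x| + |x + f x|
      have a := hf x hx0 hx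
      have b := hT x hx0 hx
      rcases lt_or_gt_of_ne hx0 with h1 | h1
      · have a1 : 0 < f x := by by_contra hc; push Not at hc; nlinarith
        have a2 : 0 < x + f x := by by_contra hc; push Not at hc; nlinarith
        rw [abs_of_neg h1, abs_of_pos a1, abs_of_pos a2]; ring
      · have a1 : f x < 0 := by by_contra hc; push Not at hc; nlinarith
        have a2 : x + f x < 0 := by by_contra hc; push Not at hc; nlinarith
        rw [abs_of_pos h1, abs_of_neg a1, abs_of_neg a2]; ring
    · intro x hx0 hx h0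
      have b := hT x hx0 hx
      have h0' : x + f x = 0 := h0
      rw [h0', mul_zero] at b
      exact lt_irrefl _ b
    · intro x hx0 hx
      have a := hf x hx0 hx
      linarith
  obtain ⟨R, hR, η, hη, s, hs, hlin⟩ := hE.main
  refine ⟨R, hR, ?_⟩
  -- one side: `f y = -(1+R) y`
  have hloc : ∀ ε > 0, ∃ η' > 0, ∀ x, |x| < η' → |f x| < ε := by
    intro ε hε
    obtain ⟨η', hη', h2⟩ := (Metric.continuousAt_iff.1 (h.hf.continuousAt (x := 0))) ε hε
    refine ⟨η', hη', fun x hx => ?_⟩
    have := h2 (x := x) (by rw [Real.dist_eq, sub_zero]; exact hx)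
    rwa [Real.dist_eq, h.zero, sub_zero] at this
  -- radius such that `f`, `f ∘ f` stay inside `min η δ`
  set r₀ := min η δ with hr₀
  have hr₀0 : 0 < r₀ := lt_min hη hδ
  obtain ⟨η₁, hη₁, hη₁'⟩ := hloc r₀ hr₀0
  set r₁ := min r₀ η₁ with hr₁
  have hr₁0 : 0 < r₁ := lt_min hr₀0 hη₁
  obtain ⟨η₂, hη₂, hη₂'⟩ := hloc r₁ hr₁0
  set r₂ := min r₁ η₂ with hr₂
  have hr₂0 : 0 < r₂ := lt_min hr₁0 hη₂
  have i0 : r₀ ≤ η := min_le_left _ _
  have i0' : r₀ ≤ δ := min_le_right _ _
  have i1 : r₁ ≤ r₀ := min_le_left _ _
  have i1' : r₁ ≤ η₁ := min_le_right _ _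
  have i2 : r₂ ≤ r₁ := min_le_left _ _
  have i2' : r₂ ≤ η₂ := min_le_right _ _
  have hs2 : s * s = 1 := by rcases hs with rfl | rfl <;> norm_num
  have sabs : ∀ x, 0 < s * x → |x| = s * x := by
    intro x hx
    rcases hs with rfl | rfl
    · rw [one_mul] at hx ⊢; exact abs_of_pos hx
    · rw [abs_of_neg (by linarith)]; ring
  have hside : ∀ y, 0 < s * y → |y| < r₀ → f y = -(1 + R) * y := by
    intro y hy hyr
    have hy0 : y ≠ 0 := by rintro rfl; simp at hy
    have h1 := hlin y hy (by rw [← sabs y hy]; linarith)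
    have h2 := hT y hy0 (by linarith)
    rcases lt_or_gt_of_ne hy0 with h3 | h3
    · have a2 : 0 < y + f y := by by_contra hc; push Not at hc; nlinarith
      rw [abs_of_pos a2, abs_of_neg h3] at h1
      linarith
    · have a2 : y + f y < 0 := by by_contra hc; push Not at hc; nlinarith
      rw [abs_of_neg a2, abs_of_pos h3] at h1
      linarith
  have hall : ∀ z, |z| ≤ r₂ / 2 → f z = -(1 + R) * z := by
    intro z hz
    rcases eq_or_ne z 0 with h0 | h0
    · rw [h0, h.zero, mul_zero]
    have hzpos := abs_pos.2 h0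
    have hsne : s ≠ 0 := by rcases hs with rfl | rfl <;> norm_num
    rcases lt_or_gt_of_ne (mul_ne_zero hsne h0) with h1 | h1
    · -- the other side
      have hzδ : |z| < δ := by linarith
      have hfz : |f z| < r₁ := hη₂' z (by linarith)
      have hfz0 : f z ≠ 0 := by
        intro h'
        have := hf z h0 hzδ
        rw [h', mul_zero] at this
        exact lt_irrefl _ this
      -- the preimage
      set z₁ := -z / (1 + R) with hz₁
      have hRp : 0 < 1 + R := by linarith
      have hz₁' : z = -(1 + R) * z₁ := by rw [hz₁]; field_simp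
      have hz₁abs : |z| = (1 + R) * |z₁| := by
        rw [hz₁', abs_mul, abs_neg, abs_of_pos hRp]
      have hz₁pos : 0 < |z₁| := by
        by_contra hc
        push Not at hc
        nlinarith
      have hz₁le : |z₁| ≤ |z| := by
        rw [hz₁abs]; nlinarith
      have hz₁0 : z₁ ≠ 0 := abs_pos.1 hz₁pos
      have hsz₁ : 0 < s * z₁ := by
        rw [hz₁'] at h1
        by_contra hc
        push Not at hc
        nlinarith
      have hfz₁ : f z₁ = z := by
        rw [hside z₁ hsz₁ (by linarith)]
        exact hz₁'.symm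
      -- mono at z₁
      have m1 := hE.rmono hz₁0 (by linarith) (by rw [hfz₁]; exact hzδ)
        (by rw [hfz₁]; linarith)
      have m2 := hE.rmono h0 hzδ (by linarith) (by
        have := hη₁' (f z) (by linarith)
        linarith)
      rw [hfz₁] at m1
      have hsfz : 0 < s * f z := by
        have := hf z h0 hzδ
        by_contra hc
        push Not at hc
        have : 0 ≤ (s * z) * (s * f z) := mul_nonneg_of_nonpos_of_nonpos h1.le hc
        have e : (s * z) * (s * f z) = (s * s) * (z * f z) := by ring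
        rw [e, hs2, one_mul] at this
        linarith
      have t1 := hlin z₁ hsz₁ (by rw [← sabs z₁ hsz₁]; linarith)
      have t2 := hlin (f z) hsfz (by rw [← sabs _ hsfz]; linarith)
      rw [hfz₁] at t1
      rw [t2, mul_div_assoc, div_self (abs_pos.2 hfz0).ne', mul_one] at m2
      have hfz₁2 : |z₁ + z| / |z₁| = R := by
        rw [t1, mul_div_assoc, div_self hz₁pos.ne', mul_one]
      rw [hfz₁2] at m1
      have t3 : |z + f z| / |z| = R := le_antisymm m2 m1
      rw [div_eq_iff hzpos.ne'] at t3
      have h2 := hT z h0 hzδ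
      rcases lt_or_gt_of_ne h0 with h3 | h3
      · have a2 : 0 < z + f z := by by_contra hc; push Not at hc; nlinarith
        rw [abs_of_pos a2, abs_of_neg h3] at t3
        linarith
      · have a2 : z + f z < 0 := by by_contra hc; push Not at hc; nlinarith
        rw [abs_of_neg a2, abs_of_pos h3] at t3
        linarith
    · exact hside z h1 (by linarith)
  exact fun x => h.extB hR (by positivity) hall x

/-- If `f` is negative somewhere on the positive half-line, then `f` is linear with negative
slope. -/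
theorem Sol.rev (h : Sol f) {x₀ : ℝ} (hx₀ : 0 < x₀) (hf₀ : f x₀ < 0) :
    ∃ a < 0, ∀ x, f x = a * x := by
  -- Step 1
  have step1 : ∃ y₀ < 0, 0 < f y₀ := by
    by_contra hno
    push Not at hno
    obtain ⟨β, hβ, hlin⟩ := h.neg.nonnegHalf (f := fun x => -f (-x)) (by
      intro x hx
      rcases hx.eq_or_lt with h0 | h0
      · rw [← h0, neg_zero, h.zero, neg_zero]
      · have := hno (-x) (by linarith)
        show 0 ≤ -f (-x)
        linarith)
    have hlin' : ∀ x, x ≤ 0 → f x = β * x := by
      intro x hx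
      have := hlin (-x) (by linarith)
      simp only [neg_neg] at this
      linarith
    have hind : ∀ k : ℕ, ∃ x, 0 < x ∧ f x ≤ f x₀ ∧ x ≤ x₀ + k * f x₀ := by
      intro k
      induction k with
      | zero => exact ⟨x₀, hx₀, le_rfl, by simp⟩
      | succ k ih =>
        obtain ⟨x, hx, hfx, hxk⟩ := ih
        have hfx0 : f x < 0 := by linarith
        have e1 := h.heq x
        rw [hlin' (f x) hfx0.le] at e1
        refine ⟨x + f x, ?_, ?_, ?_⟩
        · by_contra hc
          push Not at hc
          rw [hlin' _ hc] at e1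
          nlinarith
        · rw [e1]; nlinarith
        · push_cast; linarith
    obtain ⟨k, hk⟩ := exists_nat_gt (x₀ / (-f x₀))
    rw [div_lt_iff₀ (by linarith)] at hk
    obtain ⟨x, hx, -, hxk⟩ := hind k
    linarith
  obtain ⟨y₀, hy₀, hfy₀⟩ := step1
  -- Step 2: right germ
  have step2 : ∃ δ > 0, ∀ x, 0 < x → x < δ → f x < 0 := by
    rcases germ h.hf with ⟨δ, hδ, h1⟩ | h1 | h1
    · obtain ⟨α, hα, h2⟩ := h.posGerm hδ h1
      have := h2 x₀ hx₀.le
      have : 0 < α * x₀ := mul_pos hα hx₀
      linarith
    · exact h1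
    · have := h.zeros h1 hfy₀ x₀ hx₀
      linarith
  -- Step 3: left germ
  have step3 : ∃ δ > 0, ∀ x, x < 0 → -δ < x → 0 < f x := by
    rcases germ h.neg.hf with ⟨δ, hδ, h1⟩ | ⟨δ, hδ, h1⟩ | h1
    · obtain ⟨α, hα, h2⟩ := h.neg.posGerm hδ h1
      have := h2 (-y₀) (by linarith)
      simp only [neg_neg] at this
      have : 0 < α * (-y₀) := mul_pos hα (by linarith)
      linarith
    · refine ⟨δ, hδ, fun x hx hxδ => ?_⟩
      have := h1 (-x) (by linarith) (by linarith)
      simp only [neg_neg] at this
      linarith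
    · have := h.neg.zeros h1 (p := -x₀) (by simp only [neg_neg]; linarith) (-y₀) (by linarith)
      simp only [neg_neg] at this
      linarith
  obtain ⟨δ₁, hδ₁, hr⟩ := step2
  obtain ⟨δ₂, hδ₂, hl⟩ := step3
  by_cases hz : ∀ ε > 0, ∃ w, w ≠ 0 ∧ |w| < ε ∧ w + f w = 0
  · exact ⟨-1, by norm_num, fun x => by rw [h.zerosT hz x]; ring⟩
  push Not at hz
  obtain ⟨ε, hε, hne⟩ := hz
  -- sign of T on both sides
  set d := min (min δ₁ δ₂) ε with hd
  have hd0 : 0 < d := lt_min (lt_min hδ₁ hδ₂) hε
  have d1 : d ≤ δ₁ := (min_le_left _ _).trans (min_le_left _ _)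
  have d2 : d ≤ δ₂ := (min_le_left _ _).trans (min_le_right _ _)
  have d3 : d ≤ ε := min_le_right _ _
  have hfs : ∀ x, x ≠ 0 → |x| < d → x * f x < 0 := by
    intro x hx0 hx
    rcases lt_or_gt_of_ne hx0 with h1 | h1
    · rw [abs_of_neg h1] at hx
      have := hl x h1 (by linarith)
      nlinarith
    · rw [abs_of_pos h1] at hx
      have := hr x h1 (by linarith)
      nlinarith
  -- small points with small images
  obtain ⟨η, hη, hη2⟩ : ∃ η > 0, ∀ x, |x| < η → |f x| < d := by
    obtain ⟨η', hη', h2⟩ := (Metric.continuousAt_iff.1 (h.hf.continuousAt (x := 0))) d hd0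
    refine ⟨η', hη', fun x hx => ?_⟩
    have := h2 (x := x) (by rw [Real.dist_eq, sub_zero]; exact hx)
    rwa [Real.dist_eq, h.zero, sub_zero] at this
  obtain ⟨η', hη', hη2'⟩ : ∃ η > 0, ∀ x, |x| < η → |x + f x| < d := by
    obtain ⟨η', hη', h2⟩ := (Metric.continuousAt_iff.1 (h.hT.continuousAt (x := 0))) d hd0
    refine ⟨η', hη', fun x hx => ?_⟩
    have := h2 (x := x) (by rw [Real.dist_eq, sub_zero]; exact hx)
    rwa [Real.dist_eq, h.zero, add_zero, sub_zero] at this
  set t := min (min η η') d / 2 with ht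
  have ht0 : 0 < t := by
    have : 0 < min (min η η') d := lt_min (lt_min hη hη') hd0
    positivity
  have htm : t < min (min η η') d := by rw [ht]; linarith [show 0 < min (min η η') d from lt_min (lt_min hη hη') hd0]
  have t1 : t < η := lt_of_lt_of_le htm ((min_le_left _ _).trans (min_le_left _ _))
  have t2 : t < η' := lt_of_lt_of_le htm ((min_le_left _ _).trans (min_le_right _ _))
  have t3 : t < d := lt_of_lt_of_le htm (min_le_right _ _)
  have hft : f t < 0 := hr t ht0 (by linarith)
  have hft' : |f t| < d := hη2 t (by rw [abs_of_pos ht0]; exact t1)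
  have hTt' : |t + f t| < d := hη2' t (by rw [abs_of_pos ht0]; exact t2)
  have hcomm := h.heq t
  -- right side sign
  have hright : (∀ x, 0 < x → x < d → 0 < x + f x) ∨ (∀ x, 0 < x → x < d → x + f x < 0) := by
    rcases lt_or_gt_of_ne (hne t ht0.ne' (by rw [abs_of_pos ht0]; linarith)) with h1 | h1
    · right
      intro x hx hxd
      by_contra hc
      push Not at hc
      obtain ⟨z, hz, hz0⟩ := intermediate_value_uIcc (h.hT.continuousOn)
        (show (0 : ℝ) ∈ uIcc (t + f t) (x + f x) from mem_uIcc.2 (Or.inl ⟨h1.le, hc⟩))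
      rw [mem_uIcc] at hz
      have hz1 : 0 < z ∧ z < d := by
        rcases hz with h | h
        · exact ⟨by linarith [h.1], by linarith [h.2]⟩
        · exact ⟨by linarith [h.1], by linarith [h.2]⟩
      exact hne z hz1.1.ne' (by rw [abs_of_pos hz1.1]; linarith [hz1.2]) hz0
    · left
      intro x hx hxd
      by_contra hc
      push Not at hc
      obtain ⟨z, hz, hz0⟩ := intermediate_value_uIcc (h.hT.continuousOn)
        (show (0 : ℝ) ∈ uIcc (t + f t) (x + f x) from mem_uIcc.2 (Or.inr ⟨hc, h1.le⟩))
      rw [mem_uIcc] at hz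
      have hz1 : 0 < z ∧ z < d := by
        rcases hz with h | h
        · exact ⟨by linarith [h.1], by linarith [h.2]⟩
        · exact ⟨by linarith [h.1], by linarith [h.2]⟩
      exact hne z hz1.1.ne' (by rw [abs_of_pos hz1.1]; linarith [hz1.2]) hz0
  have hleft : (∀ x, x < 0 → -d < x → 0 < x + f x) ∨ (∀ x, x < 0 → -d < x → x + f x < 0) := by
    rcases lt_or_gt_of_ne (hne (f t) hft.ne (by linarith)) with h1 | h1
    · right
      intro x hx hxd
      by_contra hc
      push Not at hc
      obtain ⟨z, hz, hz0⟩ := intermediate_value_uIcc (h.hT.continuousOn)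
        (show (0 : ℝ) ∈ uIcc (f t + f (f t)) (x + f x) from mem_uIcc.2 (Or.inl ⟨h1.le, hc⟩))
      rw [mem_uIcc] at hz
      have hftd : -d < f t := by linarith [(abs_lt.1 hft').1]
      have hz1 : z < 0 ∧ -d < z := by
        rcases hz with h | h
        · exact ⟨by linarith [h.2], by linarith [h.1]⟩
        · exact ⟨by linarith [h.2], by linarith [h.1]⟩
      exact hne z hz1.1.ne (by rw [abs_of_neg hz1.1]; linarith [hz1.2]) hz0
    · left
      intro x hx hxd
      by_contra hc
      push Not at hc
      obtain ⟨z, hz, hz0⟩ := intermediate_value_uIcc (h.hT.continuousOn)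
        (show (0 : ℝ) ∈ uIcc (f t + f (f t)) (x + f x) from mem_uIcc.2 (Or.inr ⟨hc, h1.le⟩))
      rw [mem_uIcc] at hz
      have hftd : -d < f t := by linarith [(abs_lt.1 hft').1]
      have hz1 : z < 0 ∧ -d < z := by
        rcases hz with h | h
        · exact ⟨by linarith [h.2], by linarith [h.1]⟩
        · exact ⟨by linarith [h.2], by linarith [h.1]⟩
      exact hne z hz1.1.ne (by rw [abs_of_neg hz1.1]; linarith [hz1.2]) hz0
  rcases hright with hR | hR
  · -- `T > 0` on the right, hence `T < 0` on the left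
    have hTt := hR t ht0 t3
    have hfT : f (t + f t) < 0 := hr _ hTt (by linarith [(abs_lt.1 hTt').2])
    rcases hleft with hL | hL
    · have := hL (f t) hft (by linarith [(abs_lt.1 hft').1])
      linarith
    · have hC : Contr f d := by
        refine ⟨h, hd0, hfs, ?_⟩
        intro x hx0 hx
        rcases lt_or_gt_of_ne hx0 with h1 | h1
        · rw [abs_of_neg h1] at hx
          have := hL x h1 (by linarith)
          nlinarith
        · rw [abs_of_pos h1] at hx
          have := hR x h1 hx
          nlinarith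
      obtain ⟨a, ha, ha', η₃, hη₃, hlin⟩ := hC.linear
      exact ⟨a, ha', fun x => h.extC ha ha' hη₃ hlin x⟩
  · have hTt := hR t ht0 t3
    have hfT : 0 < f (t + f t) := hl _ hTt (by linarith [(abs_lt.1 hTt').1])
    rcases hleft with hL | hL
    · obtain ⟨R, hR0, hlin⟩ := h.revExp hd0 hfs (by
        intro x hx0 hx
        rcases lt_or_gt_of_ne hx0 with h1 | h1
        · rw [abs_of_neg h1] at hx
          have := hL x h1 (by linarith)
          nlinarith
        · rw [abs_of_pos h1] at hx
          have := hR x h1 hx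
          nlinarith)
      exact ⟨-(1 + R), by linarith, hlin⟩
    · have := hL (f t) hft (by linarith [(abs_lt.1 hft').1])
      linarith

/-- Every continuous solution is of one of the two kinds. -/
theorem Sol.classify (h : Sol f) :
    (∃ α β : ℝ, 0 ≤ α ∧ 0 ≤ β ∧ ∀ x, f x = if 0 ≤ x then α * x else β * x) ∨
      (∃ a : ℝ, a < 0 ∧ ∀ x, f x = a * x) := by
  by_cases hA : ∀ x, 0 ≤ x → 0 ≤ f x
  · by_cases hB : ∀ x, x ≤ 0 → f x ≤ 0
    · left
      obtain ⟨α, hα, h1⟩ := h.nonnegHalf hA
      obtain ⟨β, hβ, h2⟩ := h.neg.nonnegHalf (f := fun x => -f (-x)) (by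
        intro x hx
        have := hB (-x) (by linarith)
        show 0 ≤ -f (-x)
        linarith)
      refine ⟨α, β, hα, hβ, fun x => ?_⟩
      split_ifs with hx
      · exact h1 x hx
      · push Not at hx
        have := h2 (-x) (by linarith)
        simp only [neg_neg] at this
        linarith
    · right
      push Not at hB
      obtain ⟨x, hx, hfx⟩ := hB
      have hx0 : x ≠ 0 := by
        rintro rfl
        rw [h.zero] at hfx
        exact lt_irrefl _ hfx
      obtain ⟨a, ha, h1⟩ := h.neg.rev (f := fun x => -f (-x)) (x₀ := -x)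
        (by have := lt_of_le_of_ne hx hx0; linarith) (by simp only [neg_neg]; linarith)
      refine ⟨a, ha, fun y => ?_⟩
      have := h1 (-y)
      simp only [neg_neg] at this
      linarith
  · right
    push Not at hA
    obtain ⟨x, hx, hfx⟩ := hA
    have hx0 : x ≠ 0 := by
      rintro rfl
      rw [h.zero] at hfx
      exact lt_irrefl _ hfx
    exact h.rev (lt_of_le_of_ne hx (Ne.symm hx0)) hfx

theorem sol_of_pw {α β : ℝ} (hα : 0 ≤ α) (hβ : 0 ≤ β)
    (hf : ∀ x, f x = if 0 ≤ x then α * x else β * x) : Sol f := by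
  have hfe : f = fun x => if 0 ≤ x then α * x else β * x := funext hf
  constructor
  · rw [hfe]
    apply Continuous.if_le (continuous_const.mul continuous_id)
      (continuous_const.mul continuous_id) continuous_const continuous_id
    intro x hx
    have : x = 0 := hx.symm
    rw [this]; simp
  · intro x
    by_cases hx : 0 ≤ x
    · have e1 : f x = α * x := by rw [hf]; simp [hx]
      have h1 : 0 ≤ α * x := mul_nonneg hα hx
      have e2 : f (α * x) = α * (α * x) := by rw [hf]; simp [h1]
      have e3 : f (x + α * x) = α * (x + α * x) := by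
        rw [hf]; simp [add_nonneg hx h1]
      rw [e1, e2, e3]; ring
    · have hx' := hx
      push Not at hx
      have e1 : f x = β * x := by rw [hf]; simp [hx']
      have h1 : β * x ≤ 0 := mul_nonpos_of_nonneg_of_nonpos hβ hx.le
      have e2 : f (β * x) = β * (β * x) := by
        rw [hf]
        split_ifs with hc
        · have : β * x = 0 := le_antisymm h1 hc
          rw [this]; ring
        · rfl
      have e3 : f (x + β * x) = β * (x + β * x) := by
        rw [hf]
        have : ¬ 0 ≤ x + β * x := by push Not; linarith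
        simp [this]
      rw [e1, e2, e3]; ring

theorem sol_of_linear {a : ℝ} (hf : ∀ x, f x = a * x) : Sol f := by
  have hfe : f = fun x => a * x := funext hf
  refine ⟨by rw [hfe]; exact continuous_const.mul continuous_id, fun x => ?_⟩
  rw [hf, hf x, hf (a * x)]
  ring

end Pool.Agent.W760.GraphAdd
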