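import Mathlib

set_option autoImplicit false

open Set Filter Topology Metric InnerProductSpace

namespace Pool.Agent.W760.Green

/-- a harmonic function on a disc with a minimum at the centre is constant -/
lemma local_const {u : ℂ → ℝ} {z : ℂ} {R : ℝ} (hR : 0 < R) (hu : HarmonicOnNhd u (ball z R))
    (hmin : ∀ w ∈ ball z R, u z ≤ u w) : ∀ w ∈ ball z R, u w = u z := by
  obtain ⟨F, hF, hFu⟩ := hu.exists_analyticOnNhd_ball_re_eq
  have hd : DifferentiableOn ℂ (fun w => Complex.exp (-F w)) (ball z R) :=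
    fun w hw => ((hF w hw).differentiableAt.neg.cexp).differentiableWithinAt
  have hn : ∀ w ∈ ball z R, ‖Complex.exp (-F w)‖ = Real.exp (-u w) := by
    intro w hw
    rw [Complex.norm_exp, Complex.neg_re]
    have := hFu hw
    simp only at this
    rw [this]
  have hz : z ∈ ball z R := mem_ball_self hR
  have hmax : IsMaxOn (norm ∘ fun w => Complex.exp (-F w)) (ball z R) z := by
    intro w hw
    simp only [mem_ofPred_eq, Function.comp_apply]
    rw [hn w hw, hn z hz]
    exact Real.exp_le_exp.2 (neg_le_neg (hmin w hw))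
  intro w hw
  have h1 := Complex.norm_eqOn_of_isPreconnected_of_isMaxOn (convex_ball z R).isPreconnected
    isOpen_ball hd hz hmax hw
  simp only [Function.comp_apply, Function.const_apply] at h1
  rw [hn w hw, hn z hz] at h1
  have := Real.exp_injective h1
  linarith

/-- minimum principle on bounded open sets -/
lemma min_bounded {U : Set ℂ} (hU : IsOpen U) (hb : Bornology.IsBounded U) {u : ℂ → ℝ}
    (hc : ContinuousOn u (closure U)) (hu : HarmonicOnNhd u U) {c : ℝ}
    (hf : ∀ p ∈ frontier U, c ≤ u p) : ∀ z ∈ U, c ≤ u z := by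
  intro z hz
  have hK : IsCompact (closure U) := hb.isCompact_closure
  obtain ⟨p, hp, hpm⟩ := hK.exists_isMinOn ⟨z, subset_closure hz⟩ hc
  have hpm' : ∀ w ∈ closure U, u p ≤ u w := fun w hw => hpm hw
  -- the set of minimum points
  set M : Set ℂ := closure U ∩ u ⁻¹' {u p} with hM
  have hMc : IsCompact M := by
    refine hK.of_isClosed_subset ?_ inter_subset_left
    exact hc.preimage_isClosed_of_isClosed isClosed_closure isClosed_singleton
  obtain ⟨q, hq, hqm⟩ := hMc.exists_isMaxOn ⟨p, hp, rfl⟩ Complex.continuous_re.continuousOn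
  have hqu : u q = u p := hq.2
  by_cases hqU : q ∈ U
  · exfalso
    obtain ⟨R, hR, hRU⟩ := Metric.isOpen_iff.1 hU q hqU
    have h1 := local_const hR (hu.mono hRU) (fun w hw => by
      rw [hqu]; exact hpm' w (subset_closure (hRU hw)))
    have hw : q + ((R / 2 : ℝ) : ℂ) ∈ ball q R := by
      rw [mem_ball, dist_eq_norm, add_sub_cancel_left, Complex.norm_real, Real.norm_eq_abs,
        abs_of_pos (by linarith)]
      linarith
    have hwM : q + ((R / 2 : ℝ) : ℂ) ∈ M := ⟨subset_closure (hRU hw), by
      rw [mem_preimage, mem_singleton_iff, h1 _ hw, hqu]⟩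
    have := hqm hwM
    simp only [mem_ofPred_eq, Complex.add_re, Complex.ofReal_re] at this
    linarith
  · have hqf : q ∈ frontier U := by
      rw [hU.frontier_eq]; exact ⟨hq.1, hqU⟩
    have := hf q hqf
    have h2 := hpm' z (subset_closure hz)
    linarith

/-- Positive harmonic functions on `G \ {a}` with a logarithmic pole at `a`. -/
structure LogPole (G : Set ℂ) (a : ℂ) (h : ℂ → ℝ) : Prop where
  harm : HarmonicOnNhd h (G \ {a})
  pos : ∀ z ∈ G \ {a}, 0 < h z
  pole : ∃ H : ℂ → ℝ, HarmonicAt H a ∧ ∀ᶠ z in 𝓝[≠] a, h z = H z - Real.log ‖z - a‖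

/-- a function with logarithmic pole whose superlevel sets are compact is minimal -/
lemma minimal_of_compact {G : Set ℂ} (hG : IsOpen G) {a : ℂ} (ha : a ∈ G) {g : ℂ → ℝ}
    (hg : LogPole G a g)
    (hcomp : ∀ ε : ℝ, 0 < ε → ∃ K : Set ℂ, IsCompact K ∧ K ⊆ G ∧
      ∀ z ∈ G \ {a}, ε ≤ g z → z ∈ K)
    {h : ℂ → ℝ} (hh : LogPole G a h) : ∀ z ∈ G \ {a}, g z ≤ h z := by
  classical
  obtain ⟨Hg, hHg, hgH⟩ := hg.pole
  obtain ⟨Hh, hHh, hhH⟩ := hh.pole
  set u : ℂ → ℝ := fun z => if z = a then Hh a - Hg a else h z - g z with hu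
  have hua : u =ᶠ[𝓝 a] fun z => Hh z - Hg z := by
    rw [eventually_nhdsWithin_iff] at hgH hhH
    filter_upwards [hgH, hhH] with z h1 h2
    by_cases hz : z = a
    · subst hz; simp [hu]
    · simp only [hu, hz, if_false]
      rw [h1 hz, h2 hz]; ring
  have huH : HarmonicOnNhd u G := by
    intro z hz
    by_cases hza : z = a
    · subst hza
      exact (harmonicAt_congr_nhds hua).2 (hHh.sub hHg)
    · have : u =ᶠ[𝓝 z] fun w => h w - g w := by
        filter_upwards [isOpen_ne.mem_nhds hza] with w hw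
        simp [hu, show w ≠ a from hw]
      exact (harmonicAt_congr_nhds this).2 ((hh.harm z ⟨hz, hza⟩).sub (hg.harm z ⟨hz, hza⟩))
  have huc : ContinuousOn u G := fun z hz => (huH z hz).1.continuousAt.continuousWithinAt
  have hgc : ContinuousOn g (G \ {a}) := fun z hz => (hg.harm z hz).1.continuousAt.continuousWithinAt
  -- `g` tends to infinity at `a`
  have hginf : Tendsto g (𝓝[≠] a) atTop := by
    have h1 : Tendsto (fun z => Hg z - Real.log ‖z - a‖) (𝓝[≠] a) atTop := by
      have h2 : Tendsto Hg (𝓝[≠] a) (𝓝 (Hg a)) :=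
        (hHg.1.continuousAt.tendsto).mono_left nhdsWithin_le_nhds
      have h3 : Tendsto (fun z => ‖z - a‖) (𝓝[≠] a) (𝓝[>] 0) := by
        rw [tendsto_nhdsWithin_iff]
        constructor
        · have : ContinuousAt (fun z : ℂ => ‖z - a‖) a := by fun_prop
          have h4 := this.tendsto
          simp only [sub_self, norm_zero] at h4
          exact h4.mono_left nhdsWithin_le_nhds
        · filter_upwards [self_mem_nhdsWithin] with z hz
          exact norm_pos_iff.2 (sub_ne_zero.2 hz)
      have h5 : Tendsto (fun z => -Real.log ‖z - a‖) (𝓝[≠] a) atTop :=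
        tendsto_neg_atBot_atTop.comp (Real.tendsto_log_nhdsGT_zero.comp h3)
      have h6 := h2.add_atTop h5
      refine h6.congr (fun z => ?_)
      ring
    refine h1.congr' ?_
    filter_upwards [hgH] with z hz
    exact hz.symm
  intro z₀ hz₀
  by_contra hcon
  push Not at hcon
  set ε : ℝ := (g z₀ - h z₀) / 2 with hε
  have hεpos : 0 < ε := by rw [hε]; linarith
  -- the region
  set U : Set ℂ := {z | z ∈ G ∧ (z = a ∨ ε < g z)} with hUdef
  obtain ⟨K, hK, hKG, hKs⟩ := hcomp ε hεpos
  have hUo : IsOpen U := by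
    rw [isOpen_iff_mem_nhds]
    intro z hz
    by_cases hza : z = a
    · subst hza
      have h1 : ∀ᶠ w in 𝓝[≠] z, ε < g w := hginf.eventually_gt_atTop ε
      rw [eventually_nhdsWithin_iff] at h1
      filter_upwards [h1, hG.mem_nhds ha] with w hw hwG
      refine ⟨hwG, ?_⟩
      by_cases hwz : w = z
      · exact Or.inl hwz
      · exact Or.inr (hw hwz)
    · have h1 : ε < g z := hz.2.resolve_left hza
      have h2 := (hg.harm z ⟨hz.1, hza⟩).1.continuousAt.eventually (lt_mem_nhds h1)
      filter_upwards [h2, hG.mem_nhds hz.1] with w hw hwG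
      exact ⟨hwG, Or.inr hw⟩
  have hUK : U ⊆ insert a K := by
    rintro z ⟨hzG, hz⟩
    by_cases hza : z = a
    · exact Or.inl hza
    · exact Or.inr (hKs z ⟨hzG, hza⟩ (hz.resolve_left hza).le)
  have hKa : IsCompact (insert a K) := hK.insert a
  have hclU : closure U ⊆ insert a K := closure_minimal hUK hKa.isClosed
  have hclG : closure U ⊆ G := hclU.trans (insert_subset ha hKG)
  have hbd : Bornology.IsBounded U := hKa.isBounded.subset hUK
  have hfr : ∀ p ∈ frontier U, -ε ≤ u p := by
    intro p hp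
    have hpcl : p ∈ closure U := frontier_subset_closure hp
    have hpG : p ∈ G := hclG hpcl
    have hpU : p ∉ U := by
      rw [hUo.frontier_eq] at hp; exact hp.2
    have hpa : p ≠ a := by
      rintro rfl
      exact hpU ⟨ha, Or.inl rfl⟩
    have h1 : g p ≤ ε := by
      by_contra h2
      push Not at h2
      exact hpU ⟨hpG, Or.inr h2⟩
    have h3 : 0 < h p := hh.pos p ⟨hpG, hpa⟩
    simp only [hu, hpa, if_false]
    linarith
  have hz₀a : z₀ ≠ a := hz₀.2
  have hz₀U : z₀ ∈ U := by
    refine ⟨hz₀.1, Or.inr ?_⟩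
    have := hh.pos z₀ hz₀
    rw [hε]; linarith
  have := min_bounded hUo hbd (huc.mono hclG) (huH.mono (subset_closure.trans hclG)) hfr z₀ hz₀U
  simp only [hu, hz₀a, if_false] at this
  rw [hε] at this
  linarith

end Pool.Agent.W760.Green
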