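import Mathlib
import Pool.Agent.W760.GreenMin

set_option autoImplicit false

open Set Filter Topology Metric InnerProductSpace

namespace Pool.Agent.W760.Green

/-- slit plane: `s = -1` gives `ℂ \ [1,∞)`, `s = 1` gives `ℂ \ (-∞,-1]` -/
def Dom (s : ℝ) : Set ℂ := {z | 1 + (s : ℂ) * z ∈ Complex.slitPlane}

/-- Green function of `Dom s` with pole at the real point `a` -/
noncomputable def gr (s a : ℝ) (z : ℂ) : ℝ :=
  Real.log (‖(Complex.sqrt (1 + (s : ℂ) * z) + (√(1 + s * a) : ℝ)) ^ 2‖) - Real.log ‖z - a‖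

noncomputable def rho (w : ℂ) : ℝ := √((‖w‖ + w.re) / 2)

lemma re_sqrt (w : ℂ) : (Complex.sqrt w).re = rho w := by
  rw [Complex.sqrt, Complex.cpow_inv_two_re, rho]

lemma sqrt_sq (w : ℂ) : (Complex.sqrt w) ^ 2 = w := by
  rw [Complex.sqrt]
  exact Complex.cpow_nat_inv_pow w two_ne_zero

lemma norm_sqrt_sq (w : ℂ) : ‖Complex.sqrt w‖ ^ 2 = ‖w‖ := by
  rw [← norm_pow, sqrt_sq]

lemma rho_pos {w : ℂ} (hw : w ∈ Complex.slitPlane) : 0 < rho w := by
  apply Real.sqrt_pos.2
  rcases hw with h | h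
  · have := norm_nonneg w; linarith
  · have h1 : |w.re| < ‖w‖ := Complex.abs_re_lt_norm.2 h
    have := neg_abs_le w.re
    linarith

lemma rho_zero {w : ℂ} (hw : w ∉ Complex.slitPlane) : rho w = 0 := by
  rw [Complex.mem_slitPlane_iff] at hw
  push Not at hw
  have hre : w = ((w.re : ℝ) : ℂ) := by
    apply Complex.ext
    · simp
    · simp [hw.2]
  have : ‖w‖ = -w.re := by
    rw [hre, Complex.norm_real, Real.norm_eq_abs, Complex.ofReal_re, abs_of_nonpos hw.1]
  rw [rho, this]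
  simp

lemma rho_nonneg (w : ℂ) : 0 ≤ rho w := Real.sqrt_nonneg _

lemma rho_continuous : Continuous rho := by unfold rho; fun_prop

lemma norm_add_sq (w : ℂ) (A : ℝ) :
    ‖Complex.sqrt w + (A : ℂ)‖ ^ 2 = ‖w‖ + A ^ 2 + 2 * A * rho w := by
  have h := norm_sqrt_sq w
  rw [← Complex.normSq_eq_norm_sq, Complex.normSq_apply] at h
  rw [← re_sqrt, ← h, ← Complex.normSq_eq_norm_sq, Complex.normSq_apply]
  simp only [Complex.add_re, Complex.add_im, Complex.ofReal_re, Complex.ofReal_im]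
  ring

lemma norm_sub_sq (w : ℂ) (A : ℝ) :
    ‖Complex.sqrt w - (A : ℂ)‖ ^ 2 = ‖w‖ + A ^ 2 - 2 * A * rho w := by
  have h := norm_sqrt_sq w
  rw [← Complex.normSq_eq_norm_sq, Complex.normSq_apply] at h
  rw [← re_sqrt, ← h, ← Complex.normSq_eq_norm_sq, Complex.normSq_apply]
  simp only [Complex.sub_re, Complex.sub_im, Complex.ofReal_re, Complex.ofReal_im]
  ring

/-- the two quantities -/
noncomputable def NN (s a : ℝ) (z : ℂ) : ℝ := ‖1 + (s : ℂ) * z‖ + (1 + s * a)
noncomputable def pp (s a : ℝ) (z : ℂ) : ℝ := 2 * √(1 + s * a) * rho (1 + (s : ℂ) * z)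

variable {s a : ℝ}

lemma NN_pos (hb : 0 < 1 + s * a) (z : ℂ) : 0 < NN s a z := by
  unfold NN
  have := norm_nonneg (1 + (s : ℂ) * z)
  linarith

lemma pp_nonneg (z : ℂ) : 0 ≤ pp s a z := by
  unfold pp
  have := rho_nonneg (1 + (s : ℂ) * z)
  positivity

lemma norm_plus (hb : 0 < 1 + s * a) (z : ℂ) :
    ‖(Complex.sqrt (1 + (s : ℂ) * z) + (√(1 + s * a) : ℝ)) ^ 2‖ = NN s a z + pp s a z := by
  rw [norm_pow, norm_add_sq, Real.sq_sqrt hb.le]; rfl

lemma norm_minus (hb : 0 < 1 + s * a) (z : ℂ) :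
    ‖(Complex.sqrt (1 + (s : ℂ) * z) - (√(1 + s * a) : ℝ)) ^ 2‖ = NN s a z - pp s a z := by
  rw [norm_pow, norm_sub_sq, Real.sq_sqrt hb.le]; rfl

lemma prod_eq (hs : s ^ 2 = 1) (hb : 0 < 1 + s * a) (z : ℂ) :
    (NN s a z + pp s a z) * (NN s a z - pp s a z) = ‖z - a‖ ^ 2 := by
  rw [← norm_plus hb, ← norm_minus hb, ← norm_mul, ← mul_pow, ← norm_pow]
  have h1 : (Complex.sqrt (1 + (s : ℂ) * z) + (√(1 + s * a) : ℝ)) *
      (Complex.sqrt (1 + (s : ℂ) * z) - (√(1 + s * a) : ℝ)) = (s : ℂ) * (z - a) := by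
    have h2 : (((√(1 + s * a) : ℝ)) : ℂ) ^ 2 = ((1 + s * a : ℝ) : ℂ) := by
      rw [← Complex.ofReal_pow, Real.sq_sqrt hb.le]
    have h3 := sqrt_sq (1 + (s : ℂ) * z)
    push_cast at h2
    linear_combination h3 - h2
  rw [h1, mul_pow, norm_mul, norm_pow, norm_pow, Complex.norm_real, Real.norm_eq_abs,
    sq_abs, hs, one_mul]

lemma minus_nonneg (hb : 0 < 1 + s * a) (z : ℂ) : 0 ≤ NN s a z - pp s a z := by
  rw [← norm_minus hb]; exact norm_nonneg _

lemma minus_pos (hs : s ^ 2 = 1) (hb : 0 < 1 + s * a) {z : ℂ} (hz : z ≠ a) :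
    0 < NN s a z - pp s a z := by
  have h1 := prod_eq hs hb z
  have h2 : 0 < ‖z - a‖ ^ 2 := by
    have := norm_pos_iff.2 (sub_ne_zero.2 hz)
    positivity
  have h3 : 0 < NN s a z + pp s a z := by
    have := NN_pos hb z
    have := pp_nonneg (s := s) (a := a) z
    linarith
  rcases (minus_nonneg hb z).eq_or_lt with h | h
  · rw [← h, mul_zero] at h1
    rw [← h1] at h2
    exact absurd h2 (lt_irrefl _)
  · exact h

/-- closed formula -/
lemma gr_eq (hs : s ^ 2 = 1) (hb : 0 < 1 + s * a) {z : ℂ} (hz : z ≠ a) :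
    gr s a z = (1 / 2) * (Real.log (NN s a z + pp s a z) - Real.log (NN s a z - pp s a z)) := by
  have h3 : 0 < NN s a z + pp s a z := by
    have := NN_pos hb z
    have := pp_nonneg (s := s) (a := a) z
    linarith
  have h4 := minus_pos hs hb hz
  have h1 := congrArg Real.log (prod_eq hs hb z)
  rw [Real.log_mul h3.ne' h4.ne', Real.log_pow] at h1
  unfold gr
  rw [norm_plus hb]
  push_cast at h1
  linarith

/-- comparison of two values -/
lemma gr_lt {s' a' : ℝ} (hs : s ^ 2 = 1) (hb : 0 < 1 + s * a) {z : ℂ} (hz : z ≠ a)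
    (hs' : s' ^ 2 = 1) (hb' : 0 < 1 + s' * a') {z' : ℂ} (hz' : z' ≠ a')
    (h : pp s' a' z' * NN s a z < pp s a z * NN s' a' z') : gr s' a' z' < gr s a z := by
  rw [gr_eq hs hb hz, gr_eq hs' hb' hz']
  have h1 := minus_pos hs hb hz
  have h2 := minus_pos hs' hb' hz'
  have h3 : 0 < NN s a z + pp s a z := by
    have := pp_nonneg (s := s) (a := a) z
    linarith
  have h4 : 0 < NN s' a' z' + pp s' a' z' := by
    have := pp_nonneg (s := s') (a := a') z'
    linarith
  rw [← Real.log_div h3.ne' h1.ne', ← Real.log_div h4.ne' h2.ne']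
  have h5 : (NN s' a' z' + pp s' a' z') / (NN s' a' z' - pp s' a' z') <
      (NN s a z + pp s a z) / (NN s a z - pp s a z) := by
    rw [div_lt_div_iff₀ h2 h1]
    nlinarith
  have := Real.log_lt_log (by positivity) h5
  linarith

lemma Dom_open (s : ℝ) : IsOpen (Dom s) :=
  Complex.isOpen_slitPlane.preimage (by fun_prop)

lemma pole_ne {w : ℂ} {b : ℝ} (hb : 0 < b) : Complex.sqrt w + ((√b : ℝ) : ℂ) ≠ 0 := by
  intro h
  have h1 := congrArg Complex.re h
  rw [Complex.add_re, re_sqrt, Complex.ofReal_re, Complex.zero_re] at h1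
  have h2 := rho_nonneg w
  have h3 := Real.sqrt_pos.2 hb
  linarith

lemma analytic_plus {z : ℂ} (hz : z ∈ Dom s) (A : ℝ) :
    AnalyticAt ℂ (fun z : ℂ => (Complex.sqrt (1 + (s : ℂ) * z) + (A : ℂ)) ^ 2) z := by
  have h1 : AnalyticAt ℂ Complex.sqrt (1 + (s : ℂ) * z) :=
    Complex.differentiableOn_sqrt.analyticAt (Complex.isOpen_slitPlane.mem_nhds hz)
  have h2 : AnalyticAt ℂ (fun z : ℂ => 1 + (s : ℂ) * z) z := by fun_prop
  have h3 : AnalyticAt ℂ (fun z : ℂ => Complex.sqrt (1 + (s : ℂ) * z)) z :=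
    AnalyticAt.comp_of_eq (g := Complex.sqrt) (f := fun z : ℂ => 1 + (s : ℂ) * z) h1 h2 rfl
  exact (h3.add analyticAt_const).pow 2

lemma pp_pos (hb : 0 < 1 + s * a) {z : ℂ} (hz : z ∈ Dom s) : 0 < pp s a z := by
  have h1 : 0 < rho (1 + (s : ℂ) * z) := rho_pos hz
  have h2 := Real.sqrt_pos.2 hb
  unfold pp
  positivity

lemma gr_pos (hs : s ^ 2 = 1) (hb : 0 < 1 + s * a) {z : ℂ} (hz : z ∈ Dom s) (hza : z ≠ a) :
    0 < gr s a z := by
  rw [gr_eq hs hb hza]
  have h1 := minus_pos hs hb hza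
  have h2 := pp_pos hb hz
  have := Real.log_lt_log h1 (show NN s a z - pp s a z < NN s a z + pp s a z by linarith)
  linarith

lemma logPole (hs : s ^ 2 = 1) (hb : 0 < 1 + s * a) : LogPole (Dom s) (a : ℂ) (gr s a) := by
  refine ⟨?_, ?_, ?_⟩
  · rintro z ⟨hz, hza⟩
    have hza' : z ≠ (a : ℂ) := hza
    unfold gr
    apply HarmonicAt.sub
    · exact (analytic_plus hz _).harmonicAt_log_norm (pow_ne_zero 2 (pole_ne hb))
    · have : AnalyticAt ℂ (fun z : ℂ => z - (a : ℂ)) z := by fun_prop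
      exact this.harmonicAt_log_norm (sub_ne_zero.2 hza')
  · rintro z ⟨hz, hza⟩
    exact gr_pos hs hb hz hza
  · have ha : (a : ℂ) ∈ Dom s := by
      show 1 + (s : ℂ) * (a : ℂ) ∈ Complex.slitPlane
      left
      simp only [Complex.add_re, Complex.one_re, Complex.mul_re, Complex.ofReal_re,
        Complex.ofReal_im, mul_zero, sub_zero]
      exact hb
    refine ⟨fun z => Real.log (‖(Complex.sqrt (1 + (s : ℂ) * z) + (√(1 + s * a) : ℝ)) ^ 2‖),
      (analytic_plus ha _).harmonicAt_log_norm (pow_ne_zero 2 (pole_ne hb)), ?_⟩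
    exact Eventually.of_forall fun z => rfl

lemma compact_super (hs : s ^ 2 = 1) (hb : 0 < 1 + s * a) {ε : ℝ} (hε : 0 < ε) :
    ∃ K : Set ℂ, IsCompact K ∧ K ⊆ Dom s ∧ ∀ z ∈ Dom s \ {(a : ℂ)}, ε ≤ gr s a z → z ∈ K := by
  set E := Real.exp (2 * ε) with hE
  have hE1 : 1 < E := by rw [hE]; exact Real.one_lt_exp_iff.2 (by linarith)
  set t := (E - 1) / (E + 1) with ht
  have ht0 : 0 < t := by rw [ht]; apply div_pos <;> linarith
  refine ⟨{z | t * NN s a z ≤ pp s a z}, ?_, ?_, ?_⟩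
  · apply Metric.isCompact_of_isClosed_isBounded
    · apply isClosed_le
      · unfold NN; fun_prop
      · unfold pp
        have := rho_continuous
        fun_prop
    · rw [isBounded_iff_forall_norm_le]
      set A := √(1 + s * a) with hA
      refine ⟨(2 * A / t) ^ 2 + 1, fun z hz => ?_⟩
      simp only [mem_ofPred_eq] at hz
      unfold NN pp at hz
      set w := 1 + (s : ℂ) * z with hw
      have hA0 : 0 < A := Real.sqrt_pos.2 hb
      have h1 : rho w ^ 2 ≤ ‖w‖ := by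
        rw [rho, Real.sq_sqrt]
        · have := Complex.re_le_norm w; linarith
        · have := neg_abs_le w.re
          have := Complex.abs_re_le_norm w
          linarith
      have h2 : t * ‖w‖ ≤ 2 * A * rho w := by nlinarith
      have h3 : ‖w‖ ≤ (2 * A / t) ^ 2 := by
        rcases (norm_nonneg w).eq_or_lt with h | h
        · rw [← h]; positivity
        · have h4 : (t * ‖w‖) ^ 2 ≤ (2 * A) ^ 2 * ‖w‖ := by
            calc (t * ‖w‖) ^ 2 ≤ (2 * A * rho w) ^ 2 := by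
                  apply pow_le_pow_left₀ (by positivity) h2
              _ = (2 * A) ^ 2 * rho w ^ 2 := by ring
              _ ≤ (2 * A) ^ 2 * ‖w‖ := by gcongr
          have h5 : t ^ 2 * ‖w‖ ≤ (2 * A) ^ 2 := by
            have : (t ^ 2 * ‖w‖) * ‖w‖ ≤ (2 * A) ^ 2 * ‖w‖ := by nlinarith
            exact le_of_mul_le_mul_right this h
          rw [div_pow, le_div_iff₀ (by positivity)]
          linarith
      have h6 : ‖z‖ ≤ ‖w‖ + 1 := by
        have h7 : ((s : ℂ)) * z = w - 1 := by rw [hw]; ring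
        have h8 : ‖(s : ℂ) * z‖ = ‖z‖ := by
          rw [norm_mul, Complex.norm_real, Real.norm_eq_abs]
          have : |s| = 1 := by
            rw [← sq_eq_sq₀ (abs_nonneg s) zero_le_one, sq_abs, hs]; norm_num
          rw [this, one_mul]
        rw [← h8, h7]
        calc ‖w - 1‖ ≤ ‖w‖ + ‖(1 : ℂ)‖ := norm_sub_le _ _
          _ = ‖w‖ + 1 := by simp
      linarith
  · intro z hz
    by_contra hcon
    have h1 : rho (1 + (s : ℂ) * z) = 0 := rho_zero hcon
    simp only [mem_ofPred_eq] at hz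
    have h2 := NN_pos hb z
    unfold pp at hz
    rw [h1, mul_zero] at hz
    have : 0 < t * NN s a z := by positivity
    linarith
  · rintro z ⟨hz, hza⟩ hge
    have hza' : z ≠ (a : ℂ) := hza
    rw [gr_eq hs hb hza'] at hge
    have h1 := minus_pos hs hb hza'
    have h3 : 0 < NN s a z + pp s a z := by
      have := pp_nonneg (s := s) (a := a) z
      linarith
    rw [← Real.log_div h3.ne' h1.ne'] at hge
    have h4 : E ≤ (NN s a z + pp s a z) / (NN s a z - pp s a z) := by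
      rw [hE, ← Real.le_log_iff_exp_le (by positivity)]
      linarith
    rw [le_div_iff₀ h1] at h4
    simp only [mem_ofPred_eq]
    rw [ht, div_mul_eq_mul_div, div_le_iff₀ (by linarith)]
    linarith

end Pool.Agent.W760.Green
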